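import Pool.Agent.Lib.NetAlg.Pr

/-!
# Codes on a set of blocks, and their repetition
-/

set_option autoImplicit false

namespace Pool.Agent.Lib.NetH

open Finset Pool.Agent.Lib.NetAlg

/-- A code on a set of blocks of probability at least `p`; the message on `e` takes at most `R e`
values. -/
def Semi (G : Net) (P : G.Sym → ℝ) (N : ℕ) (p : ℝ) (R : Fin G.nE → ℝ) : Prop :=
  ∃ (M : Type) (A : Set (G.Blk N)) (m : Fin G.nE → G.Blk N → M),
    p ≤ pr P A ∧ (∀ e, ((m e '' A).ncard : ℝ) ≤ R e) ∧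
    (∀ e, ∀ x ∈ A, ∀ y ∈ A, G.SameData m (G.tail e) x y → m e x = m e y) ∧
    ∀ v, ∀ i ∈ G.dem v, ∀ x ∈ A, ∀ y ∈ A, G.SameData m v x y → ∀ n, x n i = y n i

theorem Semi.mono {G : Net} {P : G.Sym → ℝ} {N : ℕ} {p p' : ℝ} {R R' : Fin G.nE → ℝ}
    (h : Semi G P N p R) (hp : p' ≤ p) (hR : ∀ e, R e ≤ R' e) : Semi G P N p' R' := by
  obtain ⟨M, A, m, h1, h2, h3⟩ := h
  exact ⟨M, A, m, hp.trans h1, fun e => (h2 e).trans (hR e), h3⟩

theorem semi_const (G : Net) (P : G.Sym → ℝ) (N : ℕ) (a0 : G.Sym) :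
    Semi G P N (P a0 ^ N) (fun _ => 1) := by
  classical
  refine ⟨Unit, {fun _ => a0}, fun _ _ => (), ?_, fun e => ?_, fun e x _ y _ _ => rfl,
    fun v i _ x hx y hy _ n => ?_⟩
  · unfold pr
    rw [Finset.sum_eq_single (fun _ => a0)]
    · rw [Set.indicator_of_mem (Set.mem_singleton _)]
      simp
    · intro x _ hx
      have hx' : x ∉ ({fun _ => a0} : Set (Fin N → G.Sym)) := hx
      rw [Set.indicator_of_notMem hx']
    · intro h
      exact absurd (Finset.mem_univ _) h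
  · rw [Set.image_singleton, Set.ncard_singleton, Nat.cast_one]
  · rw [Set.mem_singleton_iff] at hx hy
    rw [hx, hy]

theorem pr_append {Ω : Type} [Fintype Ω] (P : Ω → ℝ) {N N' : ℕ} (A : Set (Fin N → Ω))
    (A' : Set (Fin N' → Ω)) :
    pr P {x : Fin (N + N') → Ω | (fun n => x (Fin.castAdd N' n)) ∈ A ∧
      (fun n => x (Fin.natAdd N n)) ∈ A'} = pr P A * pr P A' := by
  classical
  unfold pr
  rw [Finset.sum_mul_sum, ← Finset.sum_product',
    ← Equiv.sum_comp (Fin.appendEquiv N N')]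
  refine Finset.sum_congr rfl fun z _ => ?_
  obtain ⟨x, y⟩ := z
  have h1 : (fun n => Fin.appendEquiv N N' (x, y) (Fin.castAdd N' n)) = x := by
    ext1 n
    simp
  have h2 : (fun n => Fin.appendEquiv N N' (x, y) (Fin.natAdd N n)) = y := by
    ext1 n
    simp
  have h3 : ∏ n, P (Fin.appendEquiv N N' (x, y) n) = (∏ n, P (x n)) * ∏ n, P (y n) := by
    rw [Fin.prod_univ_add]
    congr 1
    · refine Finset.prod_congr rfl fun n _ => ?_
      rw [congrFun h1 n]
    · refine Finset.prod_congr rfl fun n _ => ?_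
      rw [congrFun h2 n]
  by_cases hx : x ∈ A
  · by_cases hy : y ∈ A'
    · rw [Set.indicator_of_mem hx, Set.indicator_of_mem hy, Set.indicator_of_mem, h3]
      refine ⟨?_, ?_⟩
      · rw [h1]
        exact hx
      · rw [h2]
        exact hy
    · rw [Set.indicator_of_notMem hy, mul_zero, Set.indicator_of_notMem]
      rintro ⟨-, h4⟩
      rw [h2] at h4
      exact hy h4
  · rw [Set.indicator_of_notMem hx, zero_mul, Set.indicator_of_notMem]
    rintro ⟨h4, -⟩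
    rw [h1] at h4
    exact hx h4

theorem semi_add {G : Net} {P : G.Sym → ℝ} (hP : ∀ σ, 0 ≤ P σ) {N N' : ℕ} {p p' : ℝ}
    {R R' : Fin G.nE → ℝ} (hp : 0 ≤ p') (h : Semi G P N p R) (h' : Semi G P N' p' R') :
    Semi G P (N + N') (p * p') (fun e => R e * R' e) := by
  classical
  obtain ⟨M, A, m, h1, h2, h3, h4⟩ := h
  obtain ⟨M', A', m', h1', h2', h3', h4'⟩ := h'
  refine ⟨M × M', {x : Fin (N + N') → G.Sym | (fun n => x (Fin.castAdd N' n)) ∈ A ∧
      (fun n => x (Fin.natAdd N n)) ∈ A'},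
    fun e x => (m e (fun n => x (Fin.castAdd N' n)), m' e (fun n => x (Fin.natAdd N n))),
    ?_, fun e => ?_, ?_, ?_⟩
  · rw [pr_append]
    exact mul_le_mul h1 h1' hp (pr_nonneg hP _)
  · have hsub : (fun x : G.Blk (N + N') => (m e (fun n => x (Fin.castAdd N' n)),
        m' e (fun n => x (Fin.natAdd N n)))) '' {x : Fin (N + N') → G.Sym |
        (fun n => x (Fin.castAdd N' n)) ∈ A ∧ (fun n => x (Fin.natAdd N n)) ∈ A'} ⊆
        (m e '' A) ×ˢ (m' e '' A') := by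
      rintro _ ⟨x, ⟨hx1, hx2⟩, rfl⟩
      exact ⟨⟨_, hx1, rfl⟩, ⟨_, hx2, rfl⟩⟩
    have hcard := Set.ncard_le_ncard hsub
      (((Set.toFinite A).image _).prod ((Set.toFinite A').image _))
    rw [Set.ncard_prod] at hcard
    refine le_trans (Nat.cast_le.2 hcard) ?_
    push_cast
    exact mul_le_mul (h2 e) (h2' e) (Nat.cast_nonneg _) ((Nat.cast_nonneg _).trans (h2 e))
  · rintro e x ⟨hx1, hx2⟩ y ⟨hy1, hy2⟩ ⟨hs1, hs2⟩
    refine Prod.ext ?_ ?_
    · refine h3 e _ hx1 _ hy1 ⟨fun i hi n => hs1 i hi _, fun e' he' => ?_⟩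
      exact congrArg Prod.fst (hs2 e' he')
    · refine h3' e _ hx2 _ hy2 ⟨fun i hi n => hs1 i hi _, fun e' he' => ?_⟩
      exact congrArg Prod.snd (hs2 e' he')
  · rintro v i hi x ⟨hx1, hx2⟩ y ⟨hy1, hy2⟩ ⟨hs1, hs2⟩ n
    have h5 := h4 v i hi _ hx1 _ hy1 ⟨fun l hl n => hs1 l hl _, fun e' he' =>
      congrArg Prod.fst (hs2 e' he')⟩
    have h6 := h4' v i hi _ hx2 _ hy2 ⟨fun l hl n => hs1 l hl _, fun e' he' =>
      congrArg Prod.snd (hs2 e' he')⟩
    refine Fin.addCases (fun n => ?_) (fun n => ?_) n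
    · exact h5 n
    · exact h6 n

theorem semi_pow {G : Net} {P : G.Sym → ℝ} (hP : ∀ σ, 0 ≤ P σ) {n : ℕ} {p : ℝ}
    {R : Fin G.nE → ℝ} (hp : 0 ≤ p) (hP1 : ∑ σ, P σ = 1) (h : Semi G P n p R) (r : ℕ) :
    Semi G P (r * n) (p ^ r) (fun e => R e ^ r) := by
  induction r with
  | zero =>
    obtain ⟨a0⟩ : Nonempty G.Sym := by
      by_contra hne
      rw [not_nonempty_iff] at hne
      rw [Finset.univ_eq_empty, Finset.sum_empty] at hP1
      exact zero_ne_one hP1
    have h1 := semi_const G P 0 a0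
    rw [Nat.zero_mul]
    simpa using h1
  | succ r ih =>
    rw [Nat.succ_mul]
    have h1 := semi_add hP hp ih h
    simpa only [pow_succ] using h1

end Pool.Agent.Lib.NetH
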