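import Pool.Agent.Lib.NetH.Lift
import Pool.Agent.Lib.NetH.Semi
import Pool.Agent.Lib.NetAlg.Pig

/-!
# Exponential strong converse for algorithmic solvability in hierarchical networks
-/

set_option autoImplicit false

namespace Pool.Agent.Lib.NetH

open Finset Filter Pool.Agent.Lib.NetAlg

private theorem two_rpow (x : ℝ) : (2 : ℝ) ^ x = Real.exp (Real.log 2 * x) :=
  Real.rpow_def_of_pos (by norm_num) x

private theorem two_mono {x y : ℝ} (h : x ≤ y) : (2 : ℝ) ^ x ≤ 2 ^ y :=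
  Real.rpow_le_rpow_of_exponent_le (by norm_num) h

theorem hierarchical (G : Net) (hac : G.Acyclic) (r : Fin G.k → Fin G.k → Prop)
    (hH : Hierarchical G r) (P : G.Sym → ℝ) (hP : ∀ σ, 0 ≤ P σ) (hP1 : ∑ σ, P σ = 1)
    (c : Fin G.nE → ℝ) (hc : ∀ e, 0 ≤ c e) (hna : ¬ G.Achievable P c) :
    ∃ η : ℝ, 0 < η ∧ ∃ N₀ : ℕ, ∀ N ≥ N₀,
      ∀ (U : List Bool → List (List Bool) → Option (List Bool))
        (enc : ∀ i : Fin G.k, (Fin N → Fin (G.sz i)) → List Bool),
        (∀ i, Function.Injective (enc i)) →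
        pr P {x : G.Blk N | G.AlgSolvable U enc (fun e => (N : ℝ) * c e) (η * N) x} <
          2 ^ (-(η * N)) := by
  classical
  by_contra hcon
  push Not at hcon
  refine hna (fun ε hε => ?_)
  have hL0 : 0 < Real.log 2 := Real.log_pos (by norm_num)
  have hL1 : Real.log 2 ≤ 1 := by
    have h1 := Real.log_le_sub_one_of_pos (x := 2) (by norm_num)
    linarith
  obtain ⟨η0, hη0, hlift⟩ := lift G hac r hH P hP hP1 (ε := ε * Real.log 2 / 2) (by positivity)
  obtain ⟨K, hK⟩ : ∃ K : ℝ, K = ((G.nE + G.nV * G.k : ℕ) : ℝ) := ⟨_, rfl⟩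
  have hK0 : 0 ≤ K := by
    rw [hK]
    exact Nat.cast_nonneg _
  obtain ⟨η, hη, hη1, hη2⟩ : ∃ η : ℝ, 0 < η ∧ 2 * (η * (1 + 2 * K)) ≤ η0 ∧ η ≤ ε / 4 := by
    refine ⟨min (η0 / (2 * (1 + 2 * K))) (ε / 4), lt_min (by positivity) (by positivity), ?_,
      min_le_right _ _⟩
    have h1 := min_le_left (η0 / (2 * (1 + 2 * K))) (ε / 4)
    rw [le_div_iff₀ (by positivity)] at h1
    linarith
  obtain ⟨n1, hn1⟩ := exists_nat_ge (1 / η)
  obtain ⟨n, hn, U, enc, henc, hpr⟩ := hcon η hη (max n1 1)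
  have hnn1 : n1 ≤ n := le_trans (le_max_left _ _) hn
  have hn0 : 1 ≤ n := le_trans (le_max_right _ _) hn
  have hηn : 1 ≤ η * n := by
    rw [div_le_iff₀ hη] at hn1
    have h1 : (n1 : ℝ) ≤ n := by exact_mod_cast hnn1
    nlinarith
  have hnR : (0 : ℝ) ≤ n := Nat.cast_nonneg n
  -- the code on a set of blocks of length `n`
  have hsemi : Semi G P n (2 ^ (-(η * n * (1 + 2 * K))) : ℝ)
      (fun e => 2 ^ ((n : ℝ) * (c e + 2 * η))) := by
    obtain ⟨A, m, -, hAp, hZ, hm, hd⟩ := pig G P hP n U enc henc (fun e => (n : ℝ) * c e)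
      (fun e => mul_nonneg hnR (hc e)) (η * n) (by positivity)
    refine ⟨List Bool, A, m, ?_, fun e => ?_, hm, hd⟩
    · have h1 := hpr.trans hAp
      rw [← hK, ← div_le_iff₀ (by positivity), div_eq_mul_inv, ← Real.rpow_neg (by norm_num),
        ← Real.rpow_add (by norm_num)] at h1
      refine le_trans (two_mono ?_) h1
      nlinarith
    · obtain ⟨Z, hZ1, hZ2⟩ := hZ e
      have hsub : m e '' A ⊆ (Z : Set (List Bool)) := by
        rintro _ ⟨x, hx, rfl⟩
        exact hZ2 x hx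
      have h1 := Set.ncard_le_ncard hsub (Finset.finite_toSet _)
      rw [Set.ncard_coe_finset] at h1
      refine le_trans (Nat.cast_le.2 h1) (hZ1.trans (two_mono ?_))
      nlinarith
  obtain ⟨a0, ha0⟩ : ∃ a0, 0 < P a0 := by
    by_contra h
    push Not at h
    have h1 := Finset.sum_nonpos (fun σ (_ : σ ∈ (univ : Finset G.Sym)) => h σ)
    rw [hP1] at h1
    linarith
  have ha1 : P a0 ≤ 1 := by
    rw [← hP1]
    exact Finset.single_le_sum (fun ρ _ => hP ρ) (Finset.mem_univ a0)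
  have ev := ev_exp (c := η * (1 + 2 * K)) (δ := P a0 ^ n) (by positivity) (pow_pos ha0 n) 1
  have hev : ∀ᶠ N : ℕ in atTop, ∃ (m : Fin G.nE → G.Blk N → ℕ)
    (d : Fin G.nV → G.Blk N → G.Blk N),
    (∀ e, ((univ.image (m e)).card : ℝ) ≤ 2 ^ ((N : ℝ) * (c e + ε))) ∧
    (∀ e x y, G.SameData m (G.tail e) x y → m e x = m e y) ∧
    (∀ v x y, G.SameData m v x y → d v x = d v y) ∧
    ∀ v, pr P {x : G.Blk N | ¬ ∀ i ∈ G.dem v, ∀ n, d v x n i = x n i} ≤ ε := by
    filter_upwards [hlift, ev] with N h1 h2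
    have hNR : (0 : ℝ) ≤ N := Nat.cast_nonneg N
    have hdm : N / n * n + N % n = N := Nat.div_add_mod' N n
    have hrn : ((N / n : ℕ) : ℝ) * n ≤ N := by
      have h3 : N / n * n ≤ N := Nat.div_mul_le_self N n
      exact_mod_cast h3
    have hs := semi_add hP (pow_nonneg ha0.le (N % n))
      (semi_pow hP (by positivity) hP1 hsemi (N / n)) (semi_const G P (N % n) a0)
    rw [hdm] at hs
    obtain ⟨M, A, m, hA1, hA2, hA3, hA4⟩ := hs
    have hpA : Real.exp (-(η0 * N)) ≤ pr P A := by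
      refine le_trans ?_ hA1
      have h3 : Real.exp (-(η * (1 + 2 * K) * N)) ≤
          ((2 : ℝ) ^ (-(η * n * (1 + 2 * K)))) ^ (N / n) := by
        rw [← Real.rpow_mul_natCast (by norm_num), two_rpow, Real.exp_le_exp]
        have h4 : η * n * (1 + 2 * K) * ((N / n : ℕ) : ℝ) ≤ η * (1 + 2 * K) * N := by
          have h5 : η * n * (1 + 2 * K) * ((N / n : ℕ) : ℝ) =
              η * (1 + 2 * K) * (((N / n : ℕ) : ℝ) * n) := by ring
          rw [h5]
          exact mul_le_mul_of_nonneg_left hrn (by positivity)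
        have h5 : 0 ≤ η * n * (1 + 2 * K) * ((N / n : ℕ) : ℝ) := by positivity
        nlinarith
      have h4 : P a0 ^ n ≤ P a0 ^ (N % n) :=
        pow_le_pow_of_le_one ha0.le ha1 (Nat.mod_lt N hn0).le
      rw [one_mul] at h2
      calc Real.exp (-(η0 * N)) ≤
          Real.exp (-(η * (1 + 2 * K) * N)) * Real.exp (-(η * (1 + 2 * K) * N)) := by
            rw [← Real.exp_add, Real.exp_le_exp]
            nlinarith
        _ ≤ _ := mul_le_mul h3 (h2.trans h4) (Real.exp_pos _).le (by positivity)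
    obtain ⟨msg, d, hc1, hc2, hc3, hc4⟩ := h1 M A m hpA hA3 hA4
    refine ⟨msg, d, fun e => ?_, hc2, hc3, fun v => (hc4 v).trans ?_⟩
    · refine (hc1 e).trans ?_
      have h3 : ((m e '' A).ncard : ℝ) ≤ 2 ^ ((N : ℝ) * (c e + 2 * η)) := by
        refine (hA2 e).trans ?_
        beta_reduce
        rw [mul_one, ← Real.rpow_mul_natCast (by norm_num)]
        refine two_mono ?_
        have h5 : (n : ℝ) * (c e + 2 * η) * ((N / n : ℕ) : ℝ) =
            (((N / n : ℕ) : ℝ) * n) * (c e + 2 * η) := by ring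
        rw [h5]
        exact mul_le_mul_of_nonneg_right hrn (add_nonneg (hc e) (by positivity))
      have h4 : Real.exp (ε * Real.log 2 / 2 * N) = 2 ^ (ε / 2 * N) := by
        rw [two_rpow]
        congr 1
        ring
      rw [h4]
      refine (mul_le_mul_of_nonneg_right h3 (by positivity)).trans ?_
      rw [← Real.rpow_add (by norm_num)]
      refine two_mono ?_
      nlinarith
    · nlinarith
  obtain ⟨N0, hN0⟩ := eventually_atTop.1 hev
  exact ⟨N0, hN0⟩

theorem AlgSolvable.mono {G : Net} {N : ℕ} {U : List Bool → List (List Bool) → Option (List Bool)}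
    {enc : ∀ i : Fin G.k, (Fin N → Fin (G.sz i)) → List Bool} {a : Fin G.nE → ℝ} {δ δ' : ℝ}
    {x : G.Blk N} (h : G.AlgSolvable U enc a δ x) (hδ : δ ≤ δ') : G.AlgSolvable U enc a δ' x := by
  obtain ⟨m, hm1, hm2, hm3⟩ := h
  have hcl : ∀ (y : List Bool) (z : List (List Bool)) (r s : ℝ), r ≤ s → CLe U y z r →
      CLe U y z s := fun y z r s hrs ⟨q, hq1, hq2⟩ => ⟨q, hq1.trans hrs, hq2⟩
  exact ⟨m, fun e => hcl _ _ _ _ (by linarith) (hm1 e), fun e => hcl _ _ _ _ hδ (hm2 e),
    fun v i hi => hcl _ _ _ _ hδ (hm3 v i hi)⟩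

theorem tendsto_zero (G : Net) (P : G.Sym → ℝ) (hP : ∀ σ, 0 ≤ P σ) (c : Fin G.nE → ℝ) {η : ℝ}
    (hη : 0 < η) {N₀ : ℕ} (h : ∀ N ≥ N₀,
      ∀ (U : List Bool → List (List Bool) → Option (List Bool))
        (enc : ∀ i : Fin G.k, (Fin N → Fin (G.sz i)) → List Bool),
        (∀ i, Function.Injective (enc i)) →
        pr P {x : G.Blk N | G.AlgSolvable U enc (fun e => (N : ℝ) * c e) (η * N) x} <
          2 ^ (-(η * N)))
    (U : List Bool → List (List Bool) → Option (List Bool))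
    (enc : ∀ (N : ℕ) (i : Fin G.k), (Fin N → Fin (G.sz i)) → List Bool)
    (henc : ∀ N i, Function.Injective (enc N i)) (K : ℝ) :
    Tendsto (fun N : ℕ => pr P {x : G.Blk N |
      G.AlgSolvable U (enc N) (fun e => (N : ℝ) * c e) (K * Real.log N) x}) atTop (nhds 0) := by
  have h1 : Tendsto (fun N : ℕ => Real.log N / N) atTop (nhds 0) := by
    have h2 := Real.isLittleO_log_id_atTop.tendsto_div_nhds_zero
    exact h2.comp tendsto_natCast_atTop_atTop
  have h3 : ∀ᶠ N : ℕ in atTop, K * (Real.log N / N) < η := by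
    have h4 := h1.const_mul K
    rw [mul_zero] at h4
    exact h4.eventually_lt_const hη
  have h5 : Tendsto (fun N : ℕ => (2 : ℝ) ^ (-(η * (N : ℝ)))) atTop (nhds 0) := by
    have h6 : Tendsto (fun N : ℕ => Real.log 2 * η * (N : ℝ)) atTop atTop :=
      Tendsto.const_mul_atTop (mul_pos (Real.log_pos (by norm_num)) hη)
        tendsto_natCast_atTop_atTop
    refine (Real.tendsto_exp_neg_atTop_nhds_zero.comp h6).congr fun N => ?_
    simp only [Function.comp_apply]
    rw [two_rpow]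
    congr 1
    ring
  refine tendsto_of_tendsto_of_tendsto_of_le_of_le' tendsto_const_nhds h5
    (Eventually.of_forall fun N => pr_nonneg hP _) ?_
  filter_upwards [h3, eventually_ge_atTop N₀, eventually_ge_atTop 1] with N h6 h7 h8
  refine le_trans (pr_mono hP ?_) (h N h7 U (enc N) (henc N)).le
  intro x hx
  refine AlgSolvable.mono hx ?_
  have h9 : (0 : ℝ) < N := by exact_mod_cast h8
  rw [← mul_div_assoc, div_lt_iff₀ h9] at h6
  exact h6.le

end Pool.Agent.Lib.NetH
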