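import Mathlib

/-!
# Hamming distance, Hamming balls and random hash functions
-/

set_option autoImplicit false

namespace Pool.Agent.Lib.NetH

open Finset

open Classical in
/-- Hamming distance -/
noncomputable def hd {Y : Type} {n : ℕ} (x y : Fin n → Y) : ℕ :=
  (univ.filter fun t => x t ≠ y t).card

open Classical in
theorem hd_eq {Y : Type} {n : ℕ} (x y : Fin n → Y) :
    hd x y = ∑ t, if x t ≠ y t then 1 else 0 := by
  unfold hd
  rw [Finset.card_filter]

theorem hd_self {Y : Type} {n : ℕ} (x : Fin n → Y) : hd x x = 0 := by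
  classical
  rw [hd_eq]
  simp

theorem hd_comm {Y : Type} {n : ℕ} (x y : Fin n → Y) : hd x y = hd y x := by
  classical
  rw [hd_eq, hd_eq]
  refine Finset.sum_congr rfl fun t _ => ?_
  by_cases h : x t = y t
  · simp [h]
  · have h' : y t ≠ x t := fun h2 => h h2.symm
    simp [h, h']

theorem hd_triangle {Y : Type} {n : ℕ} (x y z : Fin n → Y) : hd x z ≤ hd x y + hd y z := by
  classical
  rw [hd_eq, hd_eq, hd_eq, ← Finset.sum_add_distrib]
  refine Finset.sum_le_sum fun t _ => ?_
  by_cases h : x t = y t
  · rw [h]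
    simp
  · split_ifs <;> simp

/-- the distance does not grow under coordinatewise maps; several components -/
theorem hd_le_of {Y Z W : Type} {n : ℕ} {x y : Fin n → Y} {a b : Fin n → Z} {c d : Fin n → W}
    (h : ∀ t, a t = b t → c t = d t → x t = y t) : hd x y ≤ hd a b + hd c d := by
  classical
  rw [hd_eq, hd_eq, hd_eq, ← Finset.sum_add_distrib]
  refine Finset.sum_le_sum fun t _ => ?_
  by_cases h1 : a t = b t
  · by_cases h2 : c t = d t
    · rw [h t h1 h2]
      simp
    · split_ifs <;> simp_all
  · split_ifs <;> simp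

theorem hd_le_of_one {Y Z : Type} {n : ℕ} {x y : Fin n → Y} {a b : Fin n → Z}
    (h : ∀ t, a t = b t → x t = y t) : hd x y ≤ hd a b := by
  classical
  rw [hd_eq, hd_eq]
  refine Finset.sum_le_sum fun t _ => ?_
  by_cases h1 : a t = b t
  · rw [h t h1]
    simp
  · split_ifs <;> simp

open Classical in
/-- Hamming ball -/
noncomputable def ball {Y : Type} [Fintype Y] {n : ℕ} (x : Fin n → Y) (r : ℝ) :
    Finset (Fin n → Y) := univ.filter fun z => (hd x z : ℝ) ≤ r

theorem mem_ball {Y : Type} [Fintype Y] {n : ℕ} {x z : Fin n → Y} {r : ℝ} :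
    z ∈ ball x r ↔ (hd x z : ℝ) ≤ r := by
  classical
  unfold ball
  simp

open Classical in
theorem sum_pow_hd {Y : Type} [Fintype Y] {n : ℕ} (x : Fin n → Y) {s : ℝ} (hs : 0 ≤ s) :
    ∑ z, s ^ hd x z ≤ (1 + Fintype.card Y * s) ^ n := by
  have h1 : ∀ z : Fin n → Y, s ^ hd x z = ∏ t, (if x t ≠ z t then s else 1) := by
    intro z
    rw [Finset.prod_ite]
    simp only [Finset.prod_const, one_pow, mul_one]
    rfl
  simp only [h1]
  have h := Finset.prod_univ_sum (fun _ : Fin n => (Finset.univ : Finset Y))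
    (fun t y => (if x t ≠ y then s else 1 : ℝ))
  rw [Fintype.piFinset_univ] at h
  rw [← h]
  calc (∏ t : Fin n, ∑ y, (if x t ≠ y then s else 1 : ℝ))
      ≤ ∏ _t : Fin n, (1 + Fintype.card Y * s) := by
        refine Finset.prod_le_prod (fun t _ => Finset.sum_nonneg fun y _ => ?_) fun t _ => ?_
        · split_ifs
          · exact hs
          · exact zero_le_one
        · calc (∑ y, (if x t ≠ y then s else 1 : ℝ)) ≤ ∑ y, ((if y = x t then 1 else 0) + s) := by
                refine Finset.sum_le_sum fun y _ => ?_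
                by_cases hy : x t = y
                · rw [hy]
                  simp [hs]
                · have hy' : y ≠ x t := fun h2 => hy h2.symm
                  simp [hy, hy']
            _ = 1 + Fintype.card Y * s := by
                rw [Finset.sum_add_distrib, Finset.sum_ite_eq' Finset.univ (x t) (fun _ => (1 : ℝ))]
                simp
    _ = (1 + Fintype.card Y * s) ^ n := by
        rw [Finset.prod_const, Finset.card_univ, Fintype.card_fin]

theorem ball_card {Y : Type} [Fintype Y] {ε : ℝ} (hε : 0 < ε) : ∃ κ > 0, ∀ (n : ℕ)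
    (x : Fin n → Y), ((ball x (κ * n)).card : ℝ) ≤ Real.exp (ε * n) := by
  classical
  set C : ℝ := (Fintype.card Y : ℝ) with hC
  have hC0 : 0 ≤ C := Nat.cast_nonneg _
  set s : ℝ := min (1 / 2) (ε / (2 * (C + 1))) with hs
  have hs0 : 0 < s := by
    rw [hs]
    positivity
  have hs1 : s ≤ 1 / 2 := min_le_left _ _
  have hs2 : C * s ≤ ε / 2 := by
    have h1 : s ≤ ε / (2 * (C + 1)) := min_le_right _ _
    have h2 : C * s ≤ C * (ε / (2 * (C + 1))) := mul_le_mul_of_nonneg_left h1 hC0
    have h3 : C * (ε / (2 * (C + 1))) = ε / 2 * (C / (C + 1)) := by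
      field_simp
    have h4 : C / (C + 1) ≤ 1 := by
      rw [div_le_one (by linarith)]
      linarith
    nlinarith
  have hl : Real.log s < 0 := Real.log_neg hs0 (by linarith)
  set κ : ℝ := ε / (2 * (-Real.log s)) with hκ
  have hκ0 : 0 < κ := div_pos hε (by linarith)
  refine ⟨κ, hκ0, fun n x => ?_⟩
  have h1 : ∀ z ∈ ball x (κ * n), Real.exp (κ * n * Real.log s) ≤ s ^ hd x z := by
    intro z hz
    rw [mem_ball] at hz
    rw [← Real.rpow_natCast, Real.rpow_def_of_pos hs0]
    refine Real.exp_le_exp.2 ?_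
    nlinarith
  have h2 : ((ball x (κ * n)).card : ℝ) * Real.exp (κ * n * Real.log s) ≤
      (1 + C * s) ^ n := by
    calc ((ball x (κ * n)).card : ℝ) * Real.exp (κ * n * Real.log s)
        = ∑ _z ∈ ball x (κ * n), Real.exp (κ * n * Real.log s) := by
          rw [Finset.sum_const, nsmul_eq_mul]
      _ ≤ ∑ z ∈ ball x (κ * n), s ^ hd x z := Finset.sum_le_sum h1
      _ ≤ ∑ z, s ^ hd x z :=
          Finset.sum_le_sum_of_subset_of_nonneg (Finset.subset_univ _)
            fun z _ _ => pow_nonneg hs0.le _
      _ ≤ (1 + C * s) ^ n := sum_pow_hd x hs0.le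
  have h3 : (1 + C * s) ^ n ≤ Real.exp (ε / 2 * n) := by
    calc (1 + C * s) ^ n ≤ Real.exp (C * s) ^ n := by
          refine pow_le_pow_left₀ (by positivity) ?_ n
          have := Real.add_one_le_exp (C * s)
          linarith
      _ = Real.exp (n * (C * s)) := by rw [← Real.exp_nat_mul]
      _ ≤ Real.exp (ε / 2 * n) := by
          refine Real.exp_le_exp.2 ?_
          have : (0 : ℝ) ≤ n := Nat.cast_nonneg n
          nlinarith
  have h4 : κ * n * Real.log s = -(ε / 2 * n) := by
    rw [hκ]
    have hl' : Real.log s ≠ 0 := hl.ne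
    field_simp
  rw [h4, Real.exp_neg] at h2
  have h5 : 0 < Real.exp (ε / 2 * n) := Real.exp_pos _
  have h6 : ((ball x (κ * n)).card : ℝ) ≤ Real.exp (ε / 2 * n) * Real.exp (ε / 2 * n) := by
    rw [← div_eq_mul_inv, div_le_iff₀ h5] at h2
    exact h2.trans (mul_le_mul_of_nonneg_right h3 h5.le)
  refine h6.trans (le_of_eq ?_)
  rw [← Real.exp_add]
  congr 1
  ring

open Classical in
/-- two different arguments collide with probability `1/H` -/
theorem collide {α : Type} [Fintype α] {H : ℕ} [NeZero H] {a b : α} (hab : a ≠ b) :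
    (univ.filter fun h : α → ZMod H => h a = h b).card * H =
      Fintype.card (α → ZMod H) := by
  have h1 : ∀ s : ZMod H, (univ.filter fun h : α → ZMod H => h a = h b + s).card =
      (univ.filter fun h : α → ZMod H => h a = h b).card := by
    intro s
    refine Finset.card_bij' (fun h _ => Function.update h a (h a - s))
      (fun h _ => Function.update h a (h a + s)) ?_ ?_ ?_ ?_
    · intro h hh
      rw [Finset.mem_filter] at hh ⊢
      refine ⟨Finset.mem_univ _, ?_⟩
      rw [Function.update_self, Function.update_of_ne hab.symm, hh.2]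
      ring
    · intro h hh
      rw [Finset.mem_filter] at hh ⊢
      refine ⟨Finset.mem_univ _, ?_⟩
      rw [Function.update_self, Function.update_of_ne hab.symm, hh.2]
    · intro h hh
      simp
    · intro h hh
      simp
  have h2 : Fintype.card (α → ZMod H) =
      ∑ s : ZMod H, (univ.filter fun h : α → ZMod H => h a = h b + s).card := by
    rw [← Finset.card_univ, Finset.card_eq_sum_card_fiberwise
      (f := fun h : α → ZMod H => h a - h b) (t := Finset.univ) (fun _ _ => Finset.mem_coe.2 (Finset.mem_univ _))]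
    refine Finset.sum_congr rfl fun s _ => ?_
    congr 1
    ext h
    simp only [Finset.mem_filter, Finset.mem_univ, true_and]
    rw [sub_eq_iff_eq_add, add_comm]
  rw [h2]
  simp only [h1]
  rw [Finset.sum_const, Finset.card_univ, ZMod.card, smul_eq_mul, mul_comm]

open Classical in
/-- existence of a good hash function -/
theorem exists_hash {α β ι : Type} [Fintype α] [Fintype β] [Fintype ι] {H : ℕ} [NeZero H]
    (w : β → ℝ) (hw0 : ∀ x, 0 ≤ w x) (hw1 : ∑ x, w x ≤ 1) (Z : ι → β → Finset α) (c : ι → β → α)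
    {B : ℝ} (hB0 : 0 ≤ B) (hB : ∀ i x, ((Z i x).card : ℝ) ≤ B) :
    ∃ h : α → ZMod H, ∀ i, ∑ x, w x * (if ∃ z ∈ Z i x, z ≠ c i x ∧ h z = h (c i x) then 1 else 0) ≤
      Fintype.card ι * B / H := by
  have hH : (0 : ℝ) < H := by
    have := NeZero.pos H
    exact_mod_cast this
  set K : ℝ := (Fintype.card (α → ZMod H) : ℝ) with hK
  have hcol : ∀ z c : α, z ≠ c →
      ∑ h : α → ZMod H, (if h z = h c then 1 else 0 : ℝ) = K / H := by
    intro z c hzc
    rw [eq_div_iff hH.ne', hK, ← collide (H := H) hzc, Finset.card_filter]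
    push_cast
    rfl
  have h1 : ∀ i x, ∑ h : α → ZMod H,
      (if ∃ z ∈ Z i x, z ≠ c i x ∧ h z = h (c i x) then 1 else 0 : ℝ) ≤ B * (K / H) := by
    intro i x
    calc ∑ h : α → ZMod H, (if ∃ z ∈ Z i x, z ≠ c i x ∧ h z = h (c i x) then 1 else 0 : ℝ)
        ≤ ∑ h : α → ZMod H, ∑ z ∈ (Z i x).filter (fun z => z ≠ c i x),
            (if h z = h (c i x) then 1 else 0 : ℝ) := by
          refine Finset.sum_le_sum fun h _ => ?_
          split_ifs with hex
          · obtain ⟨z, hz, hz1, hz2⟩ := hex
            have hz3 : z ∈ (Z i x).filter (fun z => z ≠ c i x) := Finset.mem_filter.2 ⟨hz, hz1⟩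
            have h2 := Finset.single_le_sum (f := fun z => (if h z = h (c i x) then 1 else 0 : ℝ))
              (fun z _ => by split_ifs <;> norm_num) hz3
            simp only [hz2, if_true] at h2
            exact h2
          · exact Finset.sum_nonneg fun z _ => by split_ifs <;> norm_num
      _ = ∑ z ∈ (Z i x).filter (fun z => z ≠ c i x), K / H := by
          rw [Finset.sum_comm]
          refine Finset.sum_congr rfl fun z hz => ?_
          exact hcol z (c i x) (Finset.mem_filter.1 hz).2
      _ = (((Z i x).filter (fun z => z ≠ c i x)).card : ℝ) * (K / H) := by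
          rw [Finset.sum_const, nsmul_eq_mul]
      _ ≤ B * (K / H) := by
          refine mul_le_mul_of_nonneg_right ?_ (by positivity)
          refine le_trans ?_ (hB i x)
          exact_mod_cast Finset.card_filter_le _ _
  have h2 : ∑ h : α → ZMod H, ∑ i, ∑ x,
      w x * (if ∃ z ∈ Z i x, z ≠ c i x ∧ h z = h (c i x) then 1 else 0 : ℝ) ≤
      ∑ _h : α → ZMod H, (Fintype.card ι * B / H : ℝ) := by
    rw [Finset.sum_comm]
    calc ∑ i, ∑ h : α → ZMod H, ∑ x,
          w x * (if ∃ z ∈ Z i x, z ≠ c i x ∧ h z = h (c i x) then 1 else 0 : ℝ)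
        ≤ ∑ _i : ι, B * (K / H) := by
          refine Finset.sum_le_sum fun i _ => ?_
          rw [Finset.sum_comm]
          calc ∑ x, ∑ h : α → ZMod H,
                w x * (if ∃ z ∈ Z i x, z ≠ c i x ∧ h z = h (c i x) then 1 else 0 : ℝ)
              ≤ ∑ x, w x * (B * (K / H)) := by
                refine Finset.sum_le_sum fun x _ => ?_
                rw [← Finset.mul_sum]
                exact mul_le_mul_of_nonneg_left (h1 i x) (hw0 x)
            _ = (∑ x, w x) * (B * (K / H)) := by rw [Finset.sum_mul]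
            _ ≤ 1 * (B * (K / H)) := mul_le_mul_of_nonneg_right hw1 (by positivity)
            _ = B * (K / H) := one_mul _
      _ = ∑ _h : α → ZMod H, (Fintype.card ι * B / H : ℝ) := by
          rw [Finset.sum_const, Finset.sum_const, Finset.card_univ, Finset.card_univ,
            nsmul_eq_mul, nsmul_eq_mul, ← hK]
          ring
  obtain ⟨h, _, hh⟩ := Finset.exists_le_of_sum_le (Finset.univ_nonempty) h2
  refine ⟨h, fun i => ?_⟩
  refine le_trans ?_ hh
  refine Finset.single_le_sum (f := fun i => ∑ x,
      w x * (if ∃ z ∈ Z i x, z ≠ c i x ∧ h z = h (c i x) then 1 else 0 : ℝ)) ?_ (Finset.mem_univ i)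
  intro j _
  refine Finset.sum_nonneg fun x _ => mul_nonneg (hw0 x) ?_
  split_ifs <;> norm_num

end Pool.Agent.Lib.NetH
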