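import Pool.Agent.Lib.NetH.Order
import Pool.Agent.Lib.NetH.Hash
import Pool.Agent.Lib.NetAlg.Pr

/-!
# The construction of the block code
-/

set_option autoImplicit false

namespace Pool.Agent.Lib.NetH

open Finset Pool.Agent.Lib.NetAlg

/-- on the support of `P` the source `j` is a function of the sources in `S` -/
def Det (G : Net) (P : G.Sym → ℝ) (S : Finset (Fin G.k)) (j : Fin G.k) : Prop :=
  ∀ σ τ : G.Sym, 0 < P σ → 0 < P τ → (∀ i ∈ S, σ i = τ i) → σ j = τ j

theorem exists_fun (G : Net) (P : G.Sym → ℝ) (σ0 : G.Sym) (S : Finset (Fin G.k)) (j : Fin G.k) :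
    ∃ g : G.Sym → G.Sym, (∀ σ τ, (∀ i ∈ S, σ i = τ i) → g σ = g τ) ∧
      (Det G P S j → ∀ σ, 0 < P σ → g σ = Function.update σ0 j (σ j)) := by
  classical
  obtain ⟨g0, hg0⟩ : ∃ g0 : (G.Sym → Prop) → G.Sym, ∀ p : G.Sym → Prop, (∃ τ, p τ) →
      ∃ c, p c ∧ g0 p = Function.update σ0 j (c j) := by
    refine ⟨fun p => if h : ∃ τ, p τ then Function.update σ0 j (h.choose j) else σ0,
      fun p hp => ⟨hp.choose, hp.choose_spec, ?_⟩⟩
    beta_reduce
    rw [dif_pos hp]
  refine ⟨fun σ => g0 (fun τ => 0 < P τ ∧ ∀ i ∈ S, τ i = σ i), fun σ τ h => ?_,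
    fun hD σ hσ => ?_⟩
  · have h1 : (fun ρ : G.Sym => 0 < P ρ ∧ ∀ i ∈ S, ρ i = σ i) =
        fun ρ => 0 < P ρ ∧ ∀ i ∈ S, ρ i = τ i := by
      ext ρ
      refine and_congr_right fun _ => forall₂_congr fun i hi => ?_
      rw [h i hi]
    beta_reduce
    rw [h1]
  · obtain ⟨c, ⟨hc1, hc2⟩, hc3⟩ := hg0 (fun τ => 0 < P τ ∧ ∀ i ∈ S, τ i = σ i)
      ⟨σ, hσ, fun _ _ => rfl⟩
    beta_reduce
    rw [hc3, hD c σ hc1 hσ hc2]

theorem card_le_hd {Y : Type} {n : ℕ} (x y : Fin n → Y) (p : Fin n → Prop) [DecidablePred p]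
    (h : ∀ t, p t → x t ≠ y t) : (univ.filter p).card ≤ hd x y := by
  classical
  unfold hd
  refine Finset.card_le_card fun t ht => ?_
  simp only [Finset.mem_filter, Finset.mem_univ, true_and] at ht ⊢
  exact h t ht

theorem hd_le_card {Y : Type} {n : ℕ} (x y : Fin n → Y) (p : Fin n → Prop) [DecidablePred p]
    (h : ∀ t, x t ≠ y t → p t) : hd x y ≤ (univ.filter p).card := by
  classical
  unfold hd
  refine Finset.card_le_card fun t ht => ?_
  simp only [Finset.mem_filter, Finset.mem_univ, true_and] at ht ⊢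
  exact h t ht

/-- on `A` the messages into `v` and the sources available at `v` depend only on the sources reaching
`v` -/
theorem same_of_reach' (G : Net) (hac : G.Acyclic) {N : ℕ} {M : Type} (A : Set (G.Blk N))
    (m : Fin G.nE → G.Blk N → M)
    (hm : ∀ e, ∀ x ∈ A, ∀ y ∈ A, G.SameData m (G.tail e) x y → m e x = m e y)
    (v : Fin G.nV) (x y : G.Blk N) (hx : x ∈ A) (hy : y ∈ A)
    (h : ∀ i, G.Reaches i v → ∀ n, x n i = y n i) : G.SameData m v x y := by
  obtain ⟨rank, hrank⟩ := hac
  induction hr : rank v using Nat.strong_induction_on generalizing v with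
  | _ r ih =>
    refine ⟨fun i hi n => h i ⟨v, Relation.ReflTransGen.refl, hi⟩ n, fun e he => ?_⟩
    refine hm e x hx y hy ?_
    refine ih (rank (G.tail e)) (by rw [← hr, ← he]; exact hrank e) (G.tail e) ?_ rfl
    rintro i ⟨u, hu, hiu⟩ n
    exact h i ⟨u, hu.tail ⟨e, rfl, he⟩, hiu⟩ n

theorem code_core (G : Net) (hac : G.Acyclic) (P : G.Sym → ℝ) (hP : ∀ σ, 0 ≤ P σ)
    (hP1 : ∑ σ, P σ = 1) (T : Fin G.k → Finset (Fin G.k)) (hT : ∀ i, i ∈ T i)
    (hco : ∀ u i, Encoder G u → i ∈ G.avail u → ∃ w, G.Reach w u ∧ T i ⊆ G.avail w)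
    {N H : ℕ} [NeZero H] {r B : ℝ} (hB0 : 0 ≤ B)
    (hb1 : ∀ x : Fin N → G.Sym, ((ball x r).card : ℝ) ≤ B)
    (hb2 : ∀ x : Fin N → Option G.Sym, ((ball x r).card : ℝ) ≤ B)
    {M : Type} (A : Set (G.Blk N)) (m : Fin G.nE → G.Blk N → M)
    (hm : ∀ e, ∀ x ∈ A, ∀ y ∈ A, G.SameData m (G.tail e) x y → m e x = m e y)
    (hde : ∀ v, ∀ i ∈ G.dem v, ∀ x ∈ A, ∀ y ∈ A, G.SameData m v x y → ∀ n, x n i = y n i)
    (hdet : ∀ t, ∀ j ∈ G.dem t,
      Det G P (G.avail t) j ∨ ∃ i, Comes G i t ∧ Det G P (T i) j)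
    (F : G.Blk N → G.Blk N)
    (hFa : ∀ i, ∀ x x', (∀ n, ∀ j ∈ T i, x n j = x' n j) → ∀ n, F x n i = F x' n i)
    (Fv : Fin G.nV → G.Blk N → G.Blk N) (hFA : ∀ v x, Fv v x ∈ A)
    (hFv : ∀ v t, (G.dem t).Nonempty → G.Reach v t → ∀ x n i, Comes G i v →
      Fv v x n i = F x n i) :
    ∃ (msg : Fin G.nE → G.Blk N → Option M × (Fin G.k → Option (Option (Fin N → Option G.Sym) ×
        (Fin G.k → ZMod H)))) (d : Fin G.nV → G.Blk N → G.Blk N),
      (∀ e, ((Set.range (msg e)).ncard : ℝ) ≤
        (((m e '' A).ncard : ℝ) + 1) * ((B + 1) * (H : ℝ) ^ G.k + 1) ^ G.k) ∧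
      (∀ e x y, G.SameData msg (G.tail e) x y → msg e x = msg e y) ∧
      (∀ v x y, G.SameData msg v x y → d v x = d v y) ∧
      ∀ v, pr P {x : G.Blk N | ¬ ∀ i ∈ G.dem v, ∀ n, d v x n i = x n i} ≤
        pr P {x : G.Blk N | r < (hd x (Fv v x) : ℝ)} +
          G.k * (Fintype.card (Fin G.nV × Fin G.k) * (B * B) / H) := by
  classical
  obtain ⟨σ0⟩ : Nonempty G.Sym := by
    by_contra hne
    rw [not_nonempty_iff] at hne
    rw [Finset.univ_eq_empty, Finset.sum_empty] at hP1
    exact zero_ne_one hP1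
  choose g hg1 hg2 using exists_fun G P σ0
  obtain ⟨mask, hmask1, hmask2⟩ : ∃ mask : Fin G.nV → G.Blk N → G.Blk N,
      (∀ v x n, ∀ i ∈ G.avail v, mask v x n i = x n i) ∧
      (∀ v x n i, i ∉ G.avail v → mask v x n i = σ0 i) :=
    ⟨fun v x n j => if j ∈ G.avail v then x n j else σ0 j, fun v x n i hi => by simp [hi],
      fun v x n i hi => by simp [hi]⟩
  have hmask3 : ∀ v (x y : G.Blk N) n, x n = y n → mask v x n = mask v y n := by
    intro v x y n h
    ext1 i
    by_cases hi : i ∈ G.avail v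
    · rw [hmask1 v x n i hi, hmask1 v y n i hi, h]
    · rw [hmask2 v x n i hi, hmask2 v y n i hi]
  have hmask4 : ∀ v (x y : G.Blk N), (∀ i ∈ G.avail v, ∀ n, x n i = y n i) →
      mask v x = mask v y := by
    intro v x y h
    ext1 n
    ext1 i
    by_cases hi : i ∈ G.avail v
    · rw [hmask1 v x n i hi, hmask1 v y n i hi, h i hi n]
    · rw [hmask2 v x n i hi, hmask2 v y n i hi]
  obtain ⟨only, honly⟩ : ∃ only : Fin G.k → G.Blk N → G.Blk N,
      ∀ j x n, only j x n = Function.update σ0 j (x n j) :=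
    ⟨fun j x n => Function.update σ0 j (x n j), fun _ _ _ => rfl⟩
  obtain ⟨good, hgood⟩ : ∃ good : Fin G.k → G.Blk N → Prop, ∀ i x, good i x ↔
      ((univ.filter (fun n => F x n i ≠ x n i)).card : ℝ) ≤ r := ⟨_, fun _ _ => Iff.rfl⟩
  obtain ⟨D, hD⟩ : ∃ D : Fin G.k → G.Blk N → Fin N → Option G.Sym, ∀ i x n, D i x n =
      if F x n i = x n i then none else some (Function.update σ0 i (F x n i)) :=
    ⟨fun i x n => if F x n i = x n i then none else some (Function.update σ0 i (F x n i)),
      fun _ _ _ => rfl⟩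
  have hDball : ∀ i x, good i x → D i x ∈ ball (fun _ => none) r := by
    intro i x h
    rw [hgood] at h
    rw [mem_ball]
    refine le_trans ?_ h
    refine Nat.cast_le.2 (hd_le_card _ _ _ fun n hn h2 => hn ?_)
    rw [hD, if_pos h2]
  have hDinj : ∀ i x y, D i x = D i y → (∀ n, x n i = y n i) → ∀ n, F x n i = F y n i := by
    intro i x y h1 h2 n
    have h3 := congrFun h1 n
    rw [hD, hD] at h3
    by_cases h4 : F x n i = x n i
    · rw [if_pos h4] at h3
      by_cases h5 : F y n i = y n i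
      · rw [h4, h5, h2]
      · rw [if_neg h5] at h3
        exact absurd h3 (Option.some_ne_none _).symm
    · rw [if_neg h4] at h3
      by_cases h5 : F y n i = y n i
      · rw [if_pos h5] at h3
        exact absurd h3 (Option.some_ne_none _)
      · rw [if_neg h5] at h3
        have h6 := congrFun (Option.some_injective _ h3) i
        rw [Function.update_self, Function.update_self] at h6
        exact h6
  obtain ⟨U, hU⟩ : ∃ U : Fin G.nV → Prop, ∀ v, U v ↔ ∃ t, (G.dem t).Nonempty ∧ G.Reach v t :=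
    ⟨_, fun _ => Iff.rfl⟩
  have hUt : ∀ e v, G.head e = v → U v → U (G.tail e) := by
    intro e v he hv
    rw [hU] at hv ⊢
    obtain ⟨t, ht, hvt⟩ := hv
    exact ⟨t, ht, Relation.ReflTransGen.head ⟨e, rfl, he⟩ hvt⟩
  have hCt : ∀ e v i, G.head e = v → Comes G i (G.tail e) → Comes G i v := by
    intro e v i he hi
    exact comes_trans hi (Relation.ReflTransGen.single ⟨e, rfl, he⟩)
  have hFv' : ∀ v, U v → ∀ x n i, Comes G i v → Fv v x n i = F x n i := by
    intro v hv
    obtain ⟨t, ht, hvt⟩ := (hU v).1 hv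
    exact hFv v t ht hvt
  -- the messages of the code on `A`
  have hmF : ∀ e v, G.head e = v → U v → ∀ x, m e (Fv (G.tail e) x) = m e (Fv v x) := by
    intro e v he hv x
    refine hm e _ (hFA _ x) _ (hFA _ x) (same_of_reach' G hac A m hm _ _ _ (hFA _ x) (hFA _ x) ?_)
    rintro i ⟨u, hu, hiu⟩ n
    have hc : Comes G i (G.tail e) := ⟨u, enc_of_reach hu ⟨e, rfl⟩, hu, hiu⟩
    rw [hFv' _ (hUt e v he hv) x n i hc, hFv' v hv x n i (hCt e v i he hc)]
  obtain ⟨m1, hm1, hm2⟩ : ∃ m1 : Fin G.nE → G.Blk N → Option M,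
      (∀ e x, (U (G.tail e) ∧ ∀ i, Comes G i (G.tail e) → good i x) →
        m1 e x = some (m e (Fv (G.tail e) x))) ∧
      (∀ e x, ¬ (U (G.tail e) ∧ ∀ i, Comes G i (G.tail e) → good i x) → m1 e x = none) :=
    ⟨fun e x => if U (G.tail e) ∧ ∀ i, Comes G i (G.tail e) → good i x then
      some (m e (Fv (G.tail e) x)) else none, fun e x h => by beta_reduce; rw [if_pos h],
      fun e x h => by beta_reduce; rw [if_neg h]⟩
  -- the lists
  obtain ⟨Z, hmemZ⟩ : ∃ Z : Fin G.nV → Fin G.k → G.Blk N → Finset (G.Blk N),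
      ∀ v j x z, z ∈ Z v j x ↔ (j ∈ G.dem v ∧ ∃ y ∈ A,
      (∀ e, G.head e = v → m1 e x = some (m e y)) ∧
      (hd (mask v x) (mask v y) : ℝ) ≤ r ∧ (hd (only j y) z : ℝ) ≤ r) :=
    ⟨fun v j x => univ.filter fun z => j ∈ G.dem v ∧ ∃ y ∈ A,
      (∀ e, G.head e = v → m1 e x = some (m e y)) ∧
      (hd (mask v x) (mask v y) : ℝ) ≤ r ∧ (hd (only j y) z : ℝ) ≤ r,
      fun v j x z => by simp only [Finset.mem_filter, Finset.mem_univ, true_and]⟩
  have hZcard : ∀ v j x, ((Z v j x).card : ℝ) ≤ B * B := by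
    intro v j x
    by_cases hj : j ∈ G.dem v
    · obtain ⟨f, hf1, hf2⟩ : ∃ f : G.Blk N → Finset (G.Blk N),
          (∀ w, ((f w).card : ℝ) ≤ B) ∧
          ∀ y ∈ A, (∀ e, G.head e = v → m1 e x = some (m e y)) →
            f (mask v y) = ball (only j y) r := by
        refine ⟨fun w => if h : ∃ y ∈ A, (∀ e, G.head e = v → m1 e x = some (m e y)) ∧
          mask v y = w then ball (only j h.choose) r else ∅, fun w => ?_, fun y hyA hym => ?_⟩
        · beta_reduce
          split_ifs with h
          · exact hb1 _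
          · simp only [Finset.card_empty, Nat.cast_zero]
            exact hB0
        · have hex : ∃ y' ∈ A, (∀ e, G.head e = v → m1 e x = some (m e y')) ∧
              mask v y' = mask v y := ⟨y, hyA, hym, rfl⟩
          beta_reduce
          rw [dif_pos hex]
          obtain ⟨h4, h5, h6⟩ := hex.choose_spec
          have h7 : ∀ n, hex.choose n j = y n j := by
            refine hde v j hj _ h4 y hyA ⟨fun i hi n => ?_, fun e he => ?_⟩
            · have h8 := congrFun (congrFun h6 n) i
              rw [hmask1 v _ n i hi, hmask1 v _ n i hi] at h8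
              exact h8
            · exact Option.some_injective _ ((h5 e he).symm.trans (hym e he))
          have h9 : only j hex.choose = only j y := by
            ext1 n
            rw [honly, honly, h7]
          rw [h9]
      have hsub : Z v j x ⊆ (ball (mask v x) r).biUnion f := by
        intro z hz
        rw [hmemZ] at hz
        obtain ⟨_, y, hyA, hym, hy1, hy2⟩ := hz
        rw [Finset.mem_biUnion]
        refine ⟨mask v y, mem_ball.2 hy1, ?_⟩
        rw [hf2 y hyA hym]
        exact mem_ball.2 hy2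
      have hcardf : ∀ w ∈ ball (mask v x) r, (f w).card ≤ ⌊B⌋₊ :=
        fun w _ => Nat.le_floor (hf1 w)
      have h4 := (Finset.card_le_card hsub).trans (Finset.card_biUnion_le_card_mul _ _ _ hcardf)
      have h5 : ((Z v j x).card : ℝ) ≤ ((ball (mask v x) r).card : ℝ) * (⌊B⌋₊ : ℝ) := by
        exact_mod_cast h4
      exact h5.trans (mul_le_mul (hb1 _) (Nat.floor_le hB0) (Nat.cast_nonneg _) hB0)
    · have h4 : Z v j x = ∅ := by
        ext z
        rw [hmemZ]
        simp [hj]
      rw [h4]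
      simp only [Finset.card_empty, Nat.cast_zero]
      positivity
  obtain ⟨h, hhash⟩ := exists_hash (α := G.Blk N) (β := G.Blk N) (ι := Fin G.nV × Fin G.k)
    (H := H) (fun x => ∏ n, P (x n)) (fun x => Finset.prod_nonneg fun n _ => hP _)
    (sum_prod_eq_one hP1).le (fun i x => Z i.1 i.2 x) (fun i x => only i.2 x)
    (B := B * B) (by positivity) (fun i x => hZcard _ _ _)
  obtain ⟨pick, hpick⟩ : ∃ pick : Finset (G.Blk N) → ZMod H → G.Blk N,
      ∀ z c, (∃ w ∈ z, h w = c) → pick z c ∈ z ∧ h (pick z c) = c := by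
    refine ⟨fun z c => if hz : ∃ w ∈ z, h w = c then hz.choose else fun _ => σ0,
      fun z c hz => ?_⟩
    beta_reduce
    rw [dif_pos hz]
    exact hz.choose_spec
  -- the packets
  obtain ⟨Q, hQ⟩ : ∃ Q : Fin G.k → G.Blk N → Option (Fin N → Option G.Sym) × (Fin G.k → ZMod H),
      ∀ i x, Q i x = (if good i x then some (D i x) else none,
        fun j => h (fun n => g (T i) j (x n))) := ⟨_, fun _ _ => rfl⟩
  have hQ1 : ∀ i x y, (∀ n, ∀ j ∈ T i, x n j = y n j) → Q i x = Q i y := by
    intro i x y hxy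
    have h1 : ∀ n, F x n i = F y n i := hFa i x y hxy
    have h2 : ∀ n, x n i = y n i := fun n => hxy n i (hT i)
    have h3 : D i x = D i y := by
      ext1 n
      rw [hD, hD, h1, h2]
    have h4 : good i x ↔ good i y := by
      rw [hgood, hgood]
      simp only [h1, h2]
    rw [hQ, hQ, h3]
    refine Prod.ext ?_ ?_
    · simp only [h4]
    · ext1 j
      show h (fun n => g (T i) j (x n)) = h (fun n => g (T i) j (y n))
      congr 1
      ext1 n
      exact hg1 (T i) j _ _ (hxy n)
  have hQ2 : ∀ i x y, Q i x = Q i y → (good i x ↔ good i y) ∧ (good i x → D i x = D i y) := by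
    intro i x y hxy
    rw [hQ, hQ] at hxy
    have h1 := congrArg Prod.fst hxy
    simp only at h1
    by_cases h2 : good i x
    · rw [if_pos h2] at h1
      by_cases h3 : good i y
      · rw [if_pos h3] at h1
        exact ⟨⟨fun _ => h3, fun _ => h2⟩, fun _ => Option.some_injective _ h1⟩
      · rw [if_neg h3] at h1
        exact absurd h1 (Option.some_ne_none _)
    · rw [if_neg h2] at h1
      by_cases h3 : good i y
      · rw [if_pos h3] at h1
        exact absurd h1 (Option.some_ne_none _).symm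
      · exact ⟨⟨fun h => absurd h h2, fun h => absurd h h3⟩, fun h => absurd h h2⟩
  have hQ3 : ∀ i x y, Q i x = Q i y → ∀ j, h (fun n => g (T i) j (x n)) =
      h (fun n => g (T i) j (y n)) := by
    intro i x y hxy j
    rw [hQ, hQ] at hxy
    exact congrFun (congrArg Prod.snd hxy) j
  obtain ⟨msg, hmsg1, hmsg2, hmsg3⟩ : ∃ msg : Fin G.nE → G.Blk N → Option M ×
      (Fin G.k → Option (Option (Fin N → Option G.Sym) × (Fin G.k → ZMod H))),
      (∀ e x, (msg e x).1 = m1 e x) ∧
      (∀ e x i, Comes G i (G.tail e) → (msg e x).2 i = some (Q i x)) ∧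
      (∀ e x i, ¬ Comes G i (G.tail e) → (msg e x).2 i = none) :=
    ⟨fun e x => (m1 e x, fun i => if Comes G i (G.tail e) then some (Q i x) else none),
      fun _ _ => rfl, fun e x i hi => by simp only [hi, if_true],
      fun e x i hi => by simp only [hi, if_false]⟩
  have hpack : ∀ v x y, G.SameData msg v x y → ∀ i, Comes G i v → Q i x = Q i y := by
    rintro v x y ⟨hx1, hx2⟩ i ⟨u, hu, huv, hiu⟩
    obtain ⟨w, hwu, hw⟩ := hco u i hu hiu
    rcases Relation.ReflTransGen.cases_tail (Relation.ReflTransGen.trans hwu huv) with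
      h1 | ⟨c, h1, e, h2, h3⟩
    · refine hQ1 i x y (fun n j hj => hx1 j ?_ n)
      rw [h1]
      exact hw hj
    · have hc : Comes G i (G.tail e) := by
        refine ⟨w, ?_, ?_, hw (hT i)⟩
        · exact enc_of_reach h1 ⟨e, h2⟩
        · rw [h2]
          exact h1
      have h4 := congrFun (congrArg Prod.snd (hx2 e h3)) i
      rw [hmsg2 e x i hc, hmsg2 e y i hc] at h4
      exact Option.some_injective _ h4
  have hm1v : ∀ e v x, G.head e = v → U v → (∀ i, Comes G i v → good i x) →
      m1 e x = some (m e (Fv v x)) := by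
    intro e v x he hv hx
    rw [hm1 e x ⟨hUt e v he hv, fun i hi => hx i (hCt e v i he hi)⟩, hmF e v he hv x]
  obtain ⟨ii, hii⟩ : ∃ ii : Fin G.nV → Fin G.k → Fin G.k, ∀ v, ∀ j ∈ G.dem v,
      ¬ Det G P (G.avail v) j → Comes G (ii v j) v ∧ Det G P (T (ii v j)) j := by
    have h1 : ∀ v j, ∃ i, j ∈ G.dem v → ¬ Det G P (G.avail v) j →
        Comes G i v ∧ Det G P (T i) j := by
      intro v j
      by_cases hj : j ∈ G.dem v
      · rcases hdet v j hj with h2 | ⟨i, hi, hi2⟩
        · exact ⟨j, fun _ h3 => absurd h2 h3⟩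
        · exact ⟨i, fun _ _ => ⟨hi, hi2⟩⟩
      · exact ⟨j, fun h2 => absurd h2 hj⟩
    choose ii hii using h1
    exact ⟨ii, hii⟩
  obtain ⟨d, hd1, hd2, hd3⟩ : ∃ d : Fin G.nV → G.Blk N → G.Blk N,
      (∀ v x n, ∀ j ∈ G.dem v, Det G P (G.avail v) j → d v x n j = g (G.avail v) j (x n) j) ∧
      (∀ v x n, ∀ j ∈ G.dem v, ¬ Det G P (G.avail v) j → d v x n j =
        pick (Z v j x) (h (fun n' => g (T (ii v j)) j (x n'))) n j) ∧
      (∀ v x n, ∀ j ∉ G.dem v, d v x n j = σ0 j) :=
    ⟨fun v x n j => if j ∈ G.dem v then if Det G P (G.avail v) j then g (G.avail v) j (x n) j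
      else pick (Z v j x) (h (fun n' => g (T (ii v j)) j (x n'))) n j else σ0 j,
      fun v x n j h1 h2 => by simp only [h1, h2, if_true],
      fun v x n j h1 h2 => by simp only [h1, h2, if_true, if_false],
      fun v x n j h1 => by simp only [h1, if_false]⟩
  refine ⟨msg, d, ?_, ?_, ?_, ?_⟩
  · intro e
    obtain ⟨MA, hMA1, hMA2⟩ : ∃ MA : Finset M, (∀ z, z ∈ MA ↔ z ∈ m e '' A) ∧
        MA.card = (m e '' A).ncard :=
      ⟨((Set.toFinite A).image (m e)).toFinset, fun z => by simp,
        (Set.ncard_eq_toFinset_card _ _).symm⟩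
    obtain ⟨QS, hQS⟩ : ∃ QS : Finset (Option (Fin N → Option G.Sym) × (Fin G.k → ZMod H)),
        QS = (insert none ((ball (fun _ : Fin N => (none : Option G.Sym)) r).image some)) ×ˢ
          (univ : Finset (Fin G.k → ZMod H)) := ⟨_, rfl⟩
    have hQScard : (QS.card : ℝ) ≤ (B + 1) * (H : ℝ) ^ G.k := by
      rw [hQS, Finset.card_product, Finset.card_univ, Fintype.card_fun, ZMod.card,
        Fintype.card_fin]
      push_cast
      refine mul_le_mul_of_nonneg_right ?_ (by positivity)
      have h1 := (Finset.card_insert_le (none : Option (Fin N → Option G.Sym))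
        ((ball (fun _ : Fin N => (none : Option G.Sym)) r).image some))
      have h2 : ((ball (fun _ : Fin N => (none : Option G.Sym)) r).image some).card ≤
        (ball (fun _ : Fin N => (none : Option G.Sym)) r).card := Finset.card_image_le
      have h3 := hb2 (fun _ => none)
      have h4 : ((insert none ((ball (fun _ : Fin N => (none : Option G.Sym)) r).image
        some)).card : ℝ) ≤ ((ball (fun _ : Fin N => (none : Option G.Sym)) r).card : ℝ) + 1 := by
        exact_mod_cast h1.trans (Nat.add_le_add_right h2 1)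
      linarith
    have hsub : Set.range (msg e) ⊆ (((insert none (MA.image some)) ×ˢ
        Fintype.piFinset (fun _ : Fin G.k => insert none (QS.image some)) :
          Finset (Option M × (Fin G.k → Option (Option (Fin N → Option G.Sym) ×
            (Fin G.k → ZMod H))))) : Set _) := by
      rintro _ ⟨x, rfl⟩
      rw [Finset.mem_coe, Finset.mem_product, Fintype.mem_piFinset]
      refine ⟨?_, fun i => ?_⟩
      · rw [hmsg1]
        by_cases h1 : U (G.tail e) ∧ ∀ i, Comes G i (G.tail e) → good i x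
        · rw [hm1 e x h1]
          refine Finset.mem_insert_of_mem (Finset.mem_image_of_mem _ ?_)
          rw [hMA1]
          exact ⟨_, hFA _ x, rfl⟩
        · rw [hm2 e x h1]
          exact Finset.mem_insert_self _ _
      · by_cases h1 : Comes G i (G.tail e)
        · rw [hmsg2 e x i h1]
          refine Finset.mem_insert_of_mem (Finset.mem_image_of_mem _ ?_)
          rw [hQS, hQ, Finset.mem_product]
          refine ⟨?_, Finset.mem_univ _⟩
          simp only
          split_ifs with h2
          · exact Finset.mem_insert_of_mem (Finset.mem_image_of_mem _ (hDball i x h2))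
          · exact Finset.mem_insert_self _ _
        · rw [hmsg3 e x i h1]
          exact Finset.mem_insert_self _ _
    have hcard := Set.ncard_le_ncard hsub (Finset.finite_toSet _)
    rw [Set.ncard_coe_finset, Finset.card_product, Fintype.card_piFinset, Finset.prod_const,
      Finset.card_univ, Fintype.card_fin] at hcard
    have h1 : (((insert none (MA.image some)).card : ℕ) : ℝ) ≤ ((m e '' A).ncard : ℝ) + 1 := by
      have h2 := Finset.card_insert_le (none : Option M) (MA.image some)
      have h3 : (MA.image some).card ≤ MA.card := Finset.card_image_le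
      rw [← hMA2]
      exact_mod_cast h2.trans (Nat.add_le_add_right h3 1)
    have h2 : (((insert none (QS.image some)).card : ℕ) : ℝ) ≤ (B + 1) * (H : ℝ) ^ G.k + 1 := by
      have h2 := Finset.card_insert_le
        (none : Option (Option (Fin N → Option G.Sym) × (Fin G.k → ZMod H))) (QS.image some)
      have h3 : (QS.image some).card ≤ QS.card := Finset.card_image_le
      have h4 : (((insert none (QS.image some)).card : ℕ) : ℝ) ≤ (QS.card : ℝ) + 1 := by
        exact_mod_cast h2.trans (Nat.add_le_add_right h3 1)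
      linarith
    calc ((Set.range (msg e)).ncard : ℝ) ≤ (((insert none (MA.image some)).card : ℕ) : ℝ) *
        (((insert none (QS.image some)).card : ℕ) : ℝ) ^ G.k := by exact_mod_cast hcard
      _ ≤ _ := mul_le_mul h1 (pow_le_pow_left₀ (Nat.cast_nonneg _) h2 _) (by positivity)
        (by positivity)
  · intro e x y hxy
    have hp := hpack _ x y hxy
    refine Prod.ext ?_ ?_
    · rw [hmsg1, hmsg1]
      by_cases hx : U (G.tail e) ∧ ∀ i, Comes G i (G.tail e) → good i x
      · have hy : U (G.tail e) ∧ ∀ i, Comes G i (G.tail e) → good i y :=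
          ⟨hx.1, fun i hi => (hQ2 i x y (hp i hi)).1.1 (hx.2 i hi)⟩
        rw [hm1 e x hx, hm1 e y hy]
        congr 1
        refine hm e _ (hFA _ x) _ (hFA _ y) ⟨fun i hi n => ?_, fun e' he' => ?_⟩
        · have hc : Comes G i (G.tail e) := ⟨G.tail e, ⟨e, rfl⟩, Relation.ReflTransGen.refl, hi⟩
          rw [hFv' _ hx.1 x n i hc, hFv' _ hx.1 y n i hc]
          exact hDinj i x y ((hQ2 i x y (hp i hc)).2 (hx.2 i hc)) (hxy.1 i hi) n
        · have h4 := congrArg Prod.fst (hxy.2 e' he')
          rw [hmsg1, hmsg1, hm1v e' _ x he' hx.1 hx.2, hm1v e' _ y he' hx.1 hy.2] at h4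
          exact Option.some_injective _ h4
      · have hy : ¬ (U (G.tail e) ∧ ∀ i, Comes G i (G.tail e) → good i y) := by
          intro hy
          exact hx ⟨hy.1, fun i hi => (hQ2 i x y (hp i hi)).1.2 (hy.2 i hi)⟩
        rw [hm2 e x hx, hm2 e y hy]
    · ext1 i
      by_cases hi : Comes G i (G.tail e)
      · rw [hmsg2 e x i hi, hmsg2 e y i hi, hp i hi]
      · rw [hmsg3 e x i hi, hmsg3 e y i hi]
  · intro v x y hxy
    have hp := hpack v x y hxy
    ext1 n
    ext1 j
    by_cases hj : j ∈ G.dem v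
    · by_cases hj2 : Det G P (G.avail v) j
      · rw [hd1 v x n j hj hj2, hd1 v y n j hj hj2]
        rw [hg1 (G.avail v) j (x n) (y n) (fun i hi => hxy.1 i hi n)]
      · rw [hd2 v x n j hj hj2, hd2 v y n j hj hj2,
          hQ3 _ x y (hp _ (hii v j hj hj2).1) j]
        have h5 : mask v x = mask v y := hmask4 v x y hxy.1
        have h6 : Z v j x = Z v j y := by
          ext z
          rw [hmemZ, hmemZ, h5]
          have h7 : ∀ w : G.Blk N, (∀ e, G.head e = v → m1 e x = some (m e w)) ↔
              ∀ e, G.head e = v → m1 e y = some (m e w) := fun w =>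
            forall₂_congr fun e he => by
              have h8 := congrArg Prod.fst (hxy.2 e he)
              rw [hmsg1, hmsg1] at h8
              rw [h8]
          simp only [h7]
        rw [h6]
    · rw [hd3 v x n j hj, hd3 v y n j hj]
  · intro v
    rw [← pr_inter_supp hP]
    have hsub : ({x : G.Blk N | ¬ ∀ i ∈ G.dem v, ∀ n, d v x n i = x n i} ∩
        {x | ∀ n, 0 < P (x n)}) ⊆ {x : G.Blk N | r < (hd x (Fv v x) : ℝ)} ∪
        {x | ∃ j ∈ (univ : Finset (Fin G.k)), x ∈ {x : G.Blk N | ∃ z ∈ Z v j x,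
          z ≠ only j x ∧ h z = h (only j x)}} := by
      rintro x ⟨hx1, hx2⟩
      by_cases hr : r < (hd x (Fv v x) : ℝ)
      · exact Or.inl hr
      · right
        have hx3 : ¬ ∀ i ∈ G.dem v, ∀ n, d v x n i = x n i := hx1
        push Not at hx3
        obtain ⟨j, hj, n, hn⟩ := hx3
        refine ⟨j, Finset.mem_univ j, ?_⟩
        have hUv : U v := (hU v).2 ⟨v, ⟨j, hj⟩, Relation.ReflTransGen.refl⟩
        have hgv : ∀ i, Comes G i v → good i x := by
          intro i hi
          rw [hgood]
          refine le_trans ?_ (not_lt.1 hr)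
          refine Nat.cast_le.2 (card_le_hd _ _ _ fun n hn h2 => hn ?_)
          rw [← hFv' v hUv x n i hi, ← h2]
        by_cases hj2 : Det G P (G.avail v) j
        · rw [hd1 v x n j hj hj2, hg2 (G.avail v) j hj2 (x n) (hx2 n), Function.update_self] at hn
          exact absurd rfl hn
        · have hh := hii v j hj hj2
          have ho : (fun n' => g (T (ii v j)) j (x n')) = only j x := by
            ext1 n'
            rw [hg2 _ j hh.2 (x n') (hx2 n'), honly]
          rw [hd2 v x n j hj hj2, ho] at hn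
          have hmem : only j x ∈ Z v j x := by
            rw [hmemZ]
            refine ⟨hj, Fv v x, hFA v x, fun e he => hm1v e v x he hUv hgv, ?_, ?_⟩
            · refine le_trans ?_ (not_lt.1 hr)
              have h5 : hd (mask v x) (mask v (Fv v x)) ≤ hd x (Fv v x) :=
                hd_le_of_one fun t ht => hmask3 v _ _ t ht
              exact Nat.cast_le.2 h5
            · refine le_trans ?_ (not_lt.1 hr)
              have h5 : hd (only j (Fv v x)) (only j x) ≤ hd x (Fv v x) :=
                hd_le_of_one fun t ht => by rw [honly, honly, ht]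
              exact Nat.cast_le.2 h5
          have hp := hpick (Z v j x) (h (only j x)) ⟨_, hmem, rfl⟩
          refine ⟨_, hp.1, fun h6 => hn ?_, hp.2⟩
          rw [h6, honly, Function.update_self]
    refine le_trans (pr_mono hP hsub) (le_trans (pr_union_le hP _ _) ?_)
    refine add_le_add le_rfl ?_
    refine le_trans (pr_biUnion_le hP _ _) ?_
    have h4 : ∀ j ∈ (Finset.univ : Finset (Fin G.k)), pr P {x : G.Blk N | ∃ z ∈ Z v j x,
          z ≠ only j x ∧ h z = h (only j x)} ≤
        Fintype.card (Fin G.nV × Fin G.k) * (B * B) / H := by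
      intro j _
      refine le_trans (le_of_eq ?_) (hhash (v, j))
      unfold pr
      refine Finset.sum_congr rfl fun x _ => ?_
      by_cases h5 : ∃ z ∈ Z v j x, z ≠ only j x ∧ h z = h (only j x)
      · rw [Set.indicator_of_mem (by exact h5)]
        simp only [h5, if_true, mul_one]
      · rw [Set.indicator_of_notMem (by exact h5)]
        simp only [h5, if_false, mul_zero]
    have h5 := Finset.sum_le_sum h4
    rw [Finset.sum_const, Finset.card_univ, Fintype.card_fin, nsmul_eq_mul] at h5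
    exact h5

end Pool.Agent.Lib.NetH
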