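import Pool.Agent.Lib.NetAlg.Defs

/-!
# Hierarchical networks: definitions

(helper50, problem MP_f59b0a_lc; networks, block codes and algorithmic solutions as in
`Pool.Agent.Lib.NetAlg.Defs`)
-/

set_option autoImplicit false

namespace Pool.Agent.Lib.NetH

open Pool.Agent.Lib.NetAlg

/-- `u` is an encoder: some edge starts at `u` -/
def Encoder (G : Net) (u : Fin G.nV) : Prop := ∃ e, G.tail e = u

/-- the source `i` comes to `v`: it is available at an encoder from which there is a path to `v` -/
def Comes (G : Net) (i : Fin G.k) (v : Fin G.nV) : Prop :=
  ∃ u, Encoder G u ∧ G.Reach u v ∧ i ∈ G.avail u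

/-- The network is hierarchical with respect to the partial order `r` of the sources. -/
structure Hierarchical (G : Net) (r : Fin G.k → Fin G.k → Prop) : Prop where
  /-- `r` is a partial order -/
  refl : ∀ i, r i i
  antisymm : ∀ i j, r i j → r j i → i = j
  trans : ∀ i j l, r i j → r j l → r i l
  /-- any two sources coming to a common terminal are comparable -/
  chain : ∀ t, (G.dem t).Nonempty → ∀ i j, Comes G i t → Comes G j t → r i j ∨ r j i
  /-- if `i` is available at an encoder `u`, then some vertex `w` from which there is a path to `u`
  (possibly `w = u`) has all the sources below `i` -/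
  coord : ∀ u i, Encoder G u → i ∈ G.avail u → ∃ w, G.Reach w u ∧ ∀ j, r j i → j ∈ G.avail w
  /-- a source demanded at `t` reaches `t`, or one of the two sets of sources (those available at
  `t` and those coming to `t`) contains the other -/
  side : ∀ t, ∀ j ∈ G.dem t, G.Reaches j t ∨ (∀ i ∈ G.avail t, Comes G i t) ∨
    ∀ i, Comes G i t → i ∈ G.avail t

end Pool.Agent.Lib.NetH
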