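import Pool.Agent.Lib.NetAlg.Step

/-!
# Motion into a set along a forest, and its extension to all coordinates

The proof of `motion` repeats the proof of `Pool.Agent.Lib.NetAlg.sel`.
-/

set_option autoImplicit false

namespace Pool.Agent.Lib.NetH

open Finset Pool.Agent.Lib.NetAlg

variable {I : Type} [Fintype I] [DecidableEq I] {α : I → Type} [∀ i, Fintype (α i)]
  [∀ i, DecidableEq (α i)] {N : ℕ}

private lemma gS_congr' (P : (∀ i, α i) → ℝ) (A : Set (Fin N → ∀ i, α i)) (S : Finset I)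
    (z z' : Fin N → ∀ i, α i) (h : ∀ n, ∀ j ∈ S, z n j = z' n j) : gS P A S z = gS P A S z' := by
  unfold gS
  rw [qS_congr A S z z' h, qS_congr Set.univ S z z' h]

omit [Fintype I] [DecidableEq I] [∀ i, Fintype (α i)] in
private lemma df_congr' (S : Finset I) (x x' y y' : Fin N → ∀ i, α i)
    (h : ∀ n, ∀ j ∈ S, x n j = x' n j) (h' : ∀ n, ∀ j ∈ S, y n j = y' n j) :
    df S x y = df S x' y' := by
  unfold df
  congr 1
  refine Finset.filter_congr (fun n _ => not_congr ?_)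
  constructor
  · intro hh j hj
    rw [← h n j hj, ← h' n j hj]
    exact hh j hj
  · intro hh j hj
    rw [h n j hj, h' n j hj]
    exact hh j hj

omit [Fintype I] [∀ i, Fintype (α i)] [∀ i, DecidableEq (α i)] in
private lemma upd_on' (S : Finset I) (i : I) (hi : i ∉ S) (z : Fin N → ∀ i, α i)
    (y : Fin N → α i) : ∀ n, ∀ j ∈ S, upd z i y n j = z n j := by
  intro n j hj
  have hji : j ≠ i := fun h => hi (h ▸ hj)
  unfold upd
  rw [Function.update_of_ne hji]

private lemma theta_le (Λ l : ℝ) (h0 : 0 ≤ l) (hl : l ≤ Λ) :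
    (Real.exp l + 2 + (Real.exp l)⁻¹) / 4 ≤ Real.exp (Λ ^ 2 / 2) := by
  have h1 : Real.cosh l ≤ Real.cosh Λ := by
    rw [Real.cosh_le_cosh, abs_of_nonneg h0, abs_of_nonneg (h0.trans hl)]
    exact hl
  have h2 := Real.cosh_le_exp_half_sq Λ
  have h3 := Real.one_le_cosh l
  have h4 : Real.exp l + (Real.exp l)⁻¹ = 2 * Real.cosh l := by
    rw [Real.cosh_eq, ← Real.exp_neg]
    ring
  have h5 : (Real.exp l + 2 + (Real.exp l)⁻¹) / 4 = (1 + Real.cosh l) / 2 := by
    rw [show Real.exp l + 2 + (Real.exp l)⁻¹ = (Real.exp l + (Real.exp l)⁻¹) + 2 by ring, h4]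
    ring
  rw [h5]
  linarith

/-- the invariants of the motion on the coordinates `S` -/
def St (P : (∀ i, α i) → ℝ) (A : Set (Fin N → ∀ i, α i)) (Λ : ℝ)
    (F : (Fin N → ∀ i, α i) → (Fin N → ∀ i, α i)) (S : Finset I) : Prop :=
  (∀ x x', (∀ n, ∀ j ∈ S, x n j = x' n j) → ∀ n, ∀ j ∈ S, F x n j = F x' n j) ∧
  (∀ x, 0 < qS P A S (F x)) ∧
  ∑ x, (∏ n, P (x n)) * (Real.exp (Λ / 2 ^ S.card) ^ (df S x (F x)) /
    gS P A S (F x)) ≤ Real.exp (Λ ^ 2 / 2) ^ (N * S.card) / pr P A

theorem st_empty (P : (∀ i, α i) → ℝ) (hP1 : ∑ σ, P σ = 1)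
    (A : Set (Fin N → ∀ i, α i)) (hA : 0 < pr P A) (Λ : ℝ)
    (F : (Fin N → ∀ i, α i) → (Fin N → ∀ i, α i)) : St P A Λ F ∅ := by
  refine ⟨fun x x' _ n j hj => absurd hj (Finset.notMem_empty j),
    fun x => by rw [qS_empty]; exact hA, ?_⟩
  have hdf : ∀ x : Fin N → ∀ i, α i, df (∅ : Finset I) x (F x) = 0 := by
    intro x
    unfold df
    simp
  have hg : ∀ x : Fin N → ∀ i, α i, gS P A (∅ : Finset I) (F x) = pr P A := by
    intro x
    unfold gS
    rw [qS_empty, qS_empty, pr_univ hP1, div_one]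
  simp only [hdf, hg, pow_zero]
  rw [← Finset.sum_mul, sum_prod_eq_one hP1, one_mul]
  simp

theorem st_congr (P : (∀ i, α i) → ℝ) (A : Set (Fin N → ∀ i, α i)) (Λ : ℝ)
    (F F' : (Fin N → ∀ i, α i) → (Fin N → ∀ i, α i)) (S : Finset I)
    (h : ∀ x n, ∀ j ∈ S, F' x n j = F x n j) (hs : St P A Λ F S) : St P A Λ F' S := by
  obtain ⟨h1, h2, h3⟩ := hs
  refine ⟨fun x x' hx n j hj => ?_, fun x => ?_, ?_⟩
  · rw [h x n j hj, h x' n j hj]
    exact h1 x x' hx n j hj
  · rw [qS_congr A S _ _ (h x)]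
    exact h2 x
  · refine le_trans (le_of_eq ?_) h3
    refine Finset.sum_congr rfl (fun x _ => ?_)
    rw [gS_congr' P A S _ _ (h x), df_congr' S x x _ _ (fun _ _ _ => rfl) (h x)]

theorem st_insert (P : (∀ i, α i) → ℝ) (hP : ∀ σ, 0 ≤ P σ)
    (A : Set (Fin N → ∀ i, α i)) (hA : 0 < pr P A) (Λ : ℝ) (hΛ : 0 < Λ)
    (i : I) (S : Finset I) (hi : i ∉ S)
    (F : (Fin N → ∀ i, α i) → (Fin N → ∀ i, α i)) (hs : St P A Λ F S) :
    ∃ s : (Fin N → ∀ i, α i) → (Fin N → α i),
      St P A Λ (fun x => upd (F x) i (s x)) (insert i S) := by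
  obtain ⟨hF, hpos, hc⟩ := hs
  have hcard : (insert i S).card = S.card + 1 := Finset.card_insert_of_notMem hi
  have h2 : (1 : ℝ) ≤ 2 ^ (insert i S).card := one_le_pow₀ (by norm_num)
  have hl0 : 0 ≤ Λ / 2 ^ (insert i S).card := div_nonneg hΛ.le (le_trans zero_le_one h2)
  have hl1 : Λ / 2 ^ (insert i S).card ≤ Λ := div_le_self hΛ.le h2
  obtain ⟨s, hs1, hs2, hs3⟩ := step P hP A S i hi F hF hpos
    (Real.exp (Λ / 2 ^ (insert i S).card)) (Real.one_le_exp hl0)
  refine ⟨s, ?_, hs2, ?_⟩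
  · intro x x' h n j hj
    have h3 : s x = s x' := hs1 x x' h
    by_cases hji : j = i
    · subst hji
      simp only [upd, Function.update_self, h3]
    · have hjS := Finset.mem_of_mem_insert_of_ne hj hji
      beta_reduce
      rw [upd_on' S i hi _ _ n j hjS, upd_on' S i hi _ _ n j hjS]
      exact hF x x' (fun n j hj => h n j (Finset.mem_insert_of_mem hj)) n j hjS
  · have h4 : Real.exp (Λ / 2 ^ (insert i S).card) ^ 2 = Real.exp (Λ / 2 ^ S.card) := by
      rw [← Real.exp_nat_mul, hcard, pow_succ]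
      congr 1
      push_cast
      field_simp
    rw [h4] at hs3
    have h5 := theta_le Λ _ hl0 hl1
    have h6 : 0 ≤ (Real.exp (Λ / 2 ^ (insert i S).card) + 2 +
      (Real.exp (Λ / 2 ^ (insert i S).card))⁻¹) / 4 := by
      positivity
    have h7 := pow_le_pow_left₀ h6 h5 N
    have h8 : (0 : ℝ) ≤ Real.exp (Λ ^ 2 / 2) ^ (N * S.card) / pr P A := by positivity
    refine le_trans hs3 ?_
    refine le_trans (mul_le_mul_of_nonneg_left hc (pow_nonneg h6 N)) ?_
    refine le_trans (mul_le_mul_of_nonneg_right h7 h8) (le_of_eq ?_)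
    rw [hcard, Nat.mul_succ, pow_add]
    ring

theorem st_extend (P : (∀ i, α i) → ℝ) (hP : ∀ σ, 0 ≤ P σ)
    (A : Set (Fin N → ∀ i, α i)) (hA : 0 < pr P A) (Λ : ℝ) (hΛ : 0 < Λ)
    (F : (Fin N → ∀ i, α i) → (Fin N → ∀ i, α i)) (S : Finset I) (hs : St P A Λ F S)
    (D : Finset I) : Disjoint D S → ∃ F' : (Fin N → ∀ i, α i) → (Fin N → ∀ i, α i),
      (∀ x n, ∀ j ∈ S, F' x n j = F x n j) ∧ St P A Λ F' (D ∪ S) := by
  induction D using Finset.induction_on with
  | empty =>
    intro _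
    refine ⟨F, fun x n j _ => rfl, ?_⟩
    rw [Finset.empty_union]
    exact hs
  | insert i D hi ih =>
    intro hd
    rw [Finset.disjoint_insert_left] at hd
    obtain ⟨F', h1, h2⟩ := ih hd.2
    have hi' : i ∉ D ∪ S := by
      rw [Finset.mem_union]
      rintro (h | h)
      · exact hi h
      · exact hd.1 h
    obtain ⟨s, h3⟩ := st_insert P hP A hA Λ hΛ i (D ∪ S) hi' F' h2
    refine ⟨fun x => upd (F' x) i (s x), fun x n j hj => ?_, ?_⟩
    · beta_reduce
      rw [upd_on' (D ∪ S) i hi' _ _ n j (Finset.mem_union_right _ hj)]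
      exact h1 x n j hj
    · rw [Finset.insert_union]
      exact h3

theorem st_final (P : (∀ i, α i) → ℝ) (hP : ∀ σ, 0 ≤ P σ)
    (A : Set (Fin N → ∀ i, α i)) (hA : 0 < pr P A) (Λ : ℝ) (hΛ : 0 < Λ)
    (F : (Fin N → ∀ i, α i) → (Fin N → ∀ i, α i)) (S : Finset I) (hs : St P A Λ F S) :
    ∃ F' : (Fin N → ∀ i, α i) → (Fin N → ∀ i, α i), (∀ x, F' x ∈ A) ∧
      (∀ x n, ∀ j ∈ S, F' x n j = F x n j) ∧
      ∀ η : ℝ, 0 < η → pr P {x : Fin N → ∀ i, α i | η * N < (df univ x (F' x) : ℝ)} ≤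
        Real.exp (N * (-(Λ / 2 ^ Fintype.card I * η) + Fintype.card I * Λ ^ 2 / 2)) / pr P A := by
  obtain ⟨F', h1, h2⟩ := st_extend P hP A hA Λ hΛ F S hs (univ \ S) Finset.sdiff_disjoint
  rw [Finset.sdiff_union_of_subset (Finset.subset_univ S)] at h2
  obtain ⟨-, hb, hc⟩ := h2
  refine ⟨F', ?_, h1, ?_⟩
  · intro x
    have h4 := hb x
    by_contra hcon
    have h5 : A ∩ {y : Fin N → ∀ i, α i | ∀ n, ∀ j ∈ (univ : Finset I), y n j = F' x n j} = ∅ := by
      rw [Set.eq_empty_iff_forall_notMem]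
      rintro a ⟨haA, hax⟩
      have h6 : a = F' x := by
        ext n j
        exact hax n j (Finset.mem_univ j)
      rw [h6] at haA
      exact hcon haA
    have h6 : qS P A univ (F' x) = 0 := by
      unfold qS
      rw [h5]
      unfold pr
      simp
    rw [h6] at h4
    exact lt_irrefl _ h4
  · intro η hη
    have hN : (0 : ℝ) ≤ N := Nat.cast_nonneg N
    have hgp : ∀ x, 0 < gS P A univ (F' x) := fun x =>
      div_pos (hb x) (lt_of_lt_of_le (hb x) (qS_le hP A _ _))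
    have hg1 : ∀ x, gS P A univ (F' x) ≤ 1 := fun x =>
      (div_le_one (lt_of_lt_of_le (hb x) (qS_le hP A _ _))).2 (qS_le hP A _ _)
    rw [Finset.card_univ] at hc
    have h4 := pr_markov hP (fun x : Fin N → ∀ i, α i =>
        Real.exp (Λ / 2 ^ Fintype.card I) ^ (df univ x (F' x)) / gS P A univ (F' x))
      (fun x => div_nonneg (by positivity) (hgp x).le)
      (Real.exp_pos (Λ / 2 ^ Fintype.card I * (η * N)))
      {x : Fin N → ∀ i, α i | η * N < (df univ x (F' x) : ℝ)} (by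
        intro x hx
        have hx' : η * N < (df univ x (F' x) : ℝ) := hx
        have h5 : Real.exp (Λ / 2 ^ Fintype.card I * (η * N)) ≤
            Real.exp (Λ / 2 ^ Fintype.card I) ^ (df univ x (F' x)) := by
          rw [← Real.exp_nat_mul, Real.exp_le_exp, mul_comm ((df univ x (F' x) : ℕ) : ℝ)]
          exact mul_le_mul_of_nonneg_left hx'.le (by positivity)
        refine le_trans h5 ?_
        rw [le_div_iff₀ (hgp x)]
        exact mul_le_of_le_one_right (by positivity) (hg1 x))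
    refine le_trans h4 ?_
    rw [div_le_iff₀ (Real.exp_pos _)]
    refine le_trans hc ?_
    rw [div_mul_eq_mul_div, ← Real.exp_add]
    refine div_le_div_of_nonneg_right ?_ hA.le
    rw [← Real.exp_nat_mul, Real.exp_le_exp]
    push_cast
    refine le_of_eq ?_
    ring

theorem motion (P : (∀ i, α i) → ℝ) (hP : ∀ σ, 0 ≤ P σ) (hP1 : ∑ σ, P σ = 1)
    (A : Set (Fin N → ∀ i, α i)) (hA : 0 < pr P A)
    (R : Finset I) (T : I → Finset I) (key : I → ℕ) (hkey : Function.Injective key)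
    (h1 : ∀ i, i ∈ T i) (h2 : ∀ i ∈ R, ∀ j ∈ T i, j ∈ R ∧ T j ⊆ T i ∧ key j ≤ key i)
    (h3 : ∀ i ∈ R, T i = {i} ∨ ∃ j ∈ R, i ∉ T j ∧ T i = insert i (T j)) (Λ : ℝ) (hΛ : 0 < Λ) :
    ∃ F : (Fin N → ∀ i, α i) → (Fin N → ∀ i, α i),
      (∀ i, ∀ x x', (∀ n, ∀ j ∈ T i, x n j = x' n j) → ∀ n, F x n i = F x' n i) ∧
      ∀ S : Finset I, (S = ∅ ∨ ∃ i ∈ R, S = T i) →
        ∃ F' : (Fin N → ∀ i, α i) → (Fin N → ∀ i, α i), (∀ x, F' x ∈ A) ∧
          (∀ x n, ∀ j ∈ S, F' x n j = F x n j) ∧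
          ∀ η : ℝ, 0 < η → pr P {x : Fin N → ∀ i, α i | η * N < (df univ x (F' x) : ℝ)} ≤
            Real.exp (N * (-(Λ / 2 ^ Fintype.card I * η) + Fintype.card I * Λ ^ 2 / 2)) /
              pr P A := by
  classical
  have main : ∀ m : ℕ, ∃ F : (Fin N → ∀ i, α i) → (Fin N → ∀ i, α i),
      ∀ i ∈ R, key i < m →
        (∀ x x', (∀ n, ∀ j ∈ T i, x n j = x' n j) → ∀ n, F x n i = F x' n i) ∧
        St P A Λ F (T i) := by
    intro m
    induction m with
    | zero => exact ⟨id, fun i _ h => absurd h (Nat.not_lt_zero _)⟩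
    | succ m ih =>
      obtain ⟨F, hF⟩ := ih
      by_cases hex : ∃ i ∈ R, key i = m
      · obtain ⟨i, hiR, him⟩ := hex
        obtain ⟨s, hs⟩ : ∃ s : (Fin N → ∀ i, α i) → (Fin N → α i),
            St P A Λ (fun x => upd (F x) i (s x)) (T i) := by
          rcases h3 i hiR with hT | ⟨j, hjR, hij, hT⟩
          · obtain ⟨s, hs⟩ := st_insert P hP A hA Λ hΛ i ∅ (Finset.notMem_empty i) F
              (st_empty P hP1 A hA Λ F)
            refine ⟨s, ?_⟩
            rw [hT]
            exact hs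
          · have hjj := h1 j
            have hne : j ≠ i := fun h => hij (h ▸ hjj)
            have hjT : j ∈ T i := by
              rw [hT]
              exact Finset.mem_insert_of_mem hjj
            have hjm : key j < m := by
              have h4 := (h2 i hiR j hjT).2.2
              rw [him] at h4
              exact lt_of_le_of_ne h4 (fun h => hne (hkey (h.trans him.symm)))
            obtain ⟨s, hs⟩ := st_insert P hP A hA Λ hΛ i (T j) hij F (hF j hjR hjm).2
            refine ⟨s, ?_⟩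
            rw [hT]
            exact hs
        refine ⟨fun x => upd (F x) i (s x), fun l hlR hlm => ?_⟩
        by_cases hli : l = i
        · subst hli
          exact ⟨fun x x' h n => hs.1 x x' h n l (h1 l), hs⟩
        · have hlm' : key l < m :=
            lt_of_le_of_ne (Nat.lt_succ_iff.1 hlm) (fun h => hli (hkey (h.trans him.symm)))
          have hiT : i ∉ T l := by
            intro h
            have h4 := (h2 l hlR i h).2.2
            omega
          obtain ⟨ha, hb⟩ := hF l hlR hlm'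
          have hon : ∀ x : Fin N → ∀ i, α i, ∀ n, ∀ j ∈ T l, upd (F x) i (s x) n j = F x n j :=
            fun x n j hj => upd_on' (T l) i hiT (F x) (s x) n j hj
          refine ⟨?_, st_congr P A Λ F _ (T l) hon hb⟩
          intro x x' h n
          exact ((hon x n l (h1 l)).trans (ha x x' h n)).trans (hon x' n l (h1 l)).symm
      · refine ⟨F, fun l hlR hlm => hF l hlR ?_⟩
        exact lt_of_le_of_ne (Nat.lt_succ_iff.1 hlm) (fun h => hex ⟨l, hlR, h⟩)
  obtain ⟨F, hF⟩ := main (R.sup key + 1)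
  have hlt : ∀ i ∈ R, key i < R.sup key + 1 := fun i hi => Nat.lt_succ_of_le (Finset.le_sup hi)
  have hon : ∀ i ∈ R, ∀ (x : Fin N → ∀ i, α i) (n : Fin N), ∀ j ∈ T i,
      (fun l => if l ∈ R then F x n l else x n l : ∀ l, α l) j = F x n j := by
    intro i hi x n j hj
    simp only [(h2 i hi j hj).1, if_true]
  refine ⟨fun x n l => if l ∈ R then F x n l else x n l, fun i x x' h n => ?_, fun S hS => ?_⟩
  · by_cases hi : i ∈ R
    · simp only [hi, if_true]
      exact (hF i hi (hlt i hi)).1 x x' h n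
    · simp only [hi, if_false]
      exact h n i (h1 i)
  · refine st_final P hP A hA Λ hΛ _ S ?_
    rcases hS with rfl | ⟨i, hi, rfl⟩
    · exact st_empty P hP1 A hA Λ _
    · exact st_congr P A Λ F _ (T i) (fun x n j hj => hon i hi x n j hj) (hF i hi (hlt i hi)).2

end Pool.Agent.Lib.NetH
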