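import Pool.Agent.Lib.NetH.Code
import Pool.Agent.Lib.NetH.Move
import Pool.Agent.Lib.NetAlg.Comp

/-!
# The lifting theorem: from codes on a set of not too small probability to block codes
-/

set_option autoImplicit false

namespace Pool.Agent.Lib.NetH

open Finset Filter Pool.Agent.Lib.NetAlg

theorem hd_le_df {I : Type} [Fintype I] {α : I → Type} [∀ i, DecidableEq (α i)] {N : ℕ}
    (x y : Fin N → ∀ i, α i) : hd x y ≤ df univ x y := by
  classical
  unfold hd df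
  refine Finset.card_le_card fun n hn => ?_
  simp only [Finset.mem_filter, Finset.mem_univ, true_and, true_implies] at hn ⊢
  intro h
  exact hn (funext h)

theorem to_nat (G : Net) {N : ℕ} {M : Type} (msg : Fin G.nE → G.Blk N → M) :
    ∃ msg' : Fin G.nE → G.Blk N → ℕ, (∀ e x y, msg' e x = msg' e y ↔ msg e x = msg e y) ∧
      ∀ e, (univ.image (msg' e)).card ≤ (Set.range (msg e)).ncard := by
  classical
  have hfin : Finite (Set.range fun p : Fin G.nE × G.Blk N => msg p.1 p.2) := Set.finite_range _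
  obtain ⟨f, hf⟩ := exists_injective_nat (Set.range fun p : Fin G.nE × G.Blk N => msg p.1 p.2)
  refine ⟨fun e x => f ⟨msg e x, ⟨(e, x), rfl⟩⟩, fun e x y => ⟨fun h => ?_, fun h => ?_⟩,
    fun e => ?_⟩
  · exact congrArg Subtype.val (hf h)
  · simp only [h]
  · have h1 : ((univ.image (fun x => f ⟨msg e x, ⟨(e, x), rfl⟩⟩) : Finset ℕ) : Set ℕ) ⊆
        (fun a : M => if h : a ∈ Set.range (fun p : Fin G.nE × G.Blk N => msg p.1 p.2)
          then f ⟨a, h⟩ else 0) '' Set.range (msg e) := by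
      intro z hz
      rw [Finset.mem_coe, Finset.mem_image] at hz
      obtain ⟨x, -, rfl⟩ := hz
      refine ⟨msg e x, ⟨x, rfl⟩, ?_⟩
      have h2 : msg e x ∈ Set.range (fun p : Fin G.nE × G.Blk N => msg p.1 p.2) :=
        ⟨(e, x), rfl⟩
      beta_reduce
      rw [dif_pos h2]
    have h3 := (Set.ncard_le_ncard h1 ((Set.finite_range _).image _)).trans
        (Set.ncard_image_le (Set.finite_range _))
    rw [Set.ncard_coe_finset] at h3
    exact h3

theorem ev_exp {c δ : ℝ} (hc : 0 < c) (hδ : 0 < δ) (K : ℝ) :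
    ∀ᶠ N : ℕ in atTop, K * Real.exp (-(c * N)) ≤ δ := by
  have h1 : Tendsto (fun N : ℕ => c * (N : ℝ)) atTop atTop :=
    Tendsto.const_mul_atTop hc tendsto_natCast_atTop_atTop
  have h2 : Tendsto (fun N : ℕ => K * Real.exp (-(c * (N : ℝ)))) atTop (nhds (K * 0)) :=
    (Real.tendsto_exp_neg_atTop_nhds_zero.comp h1).const_mul K
  rw [mul_zero] at h2
  exact (h2.eventually_le_const hδ)

/-- the number of messages -/
theorem count_bound (k : ℕ) {ε₁ : ℝ} (hε₁ : 0 < ε₁) {N : ℕ}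
    (h2 : 2 * Real.exp (-(ε₁ * N)) ≤ 1) {H : ℕ} (hH2 : (H : ℝ) < Real.exp (3 * ε₁ * N) + 1)
    {a : ℝ} (ha : 1 ≤ a) :
    (a + 1) * ((Real.exp (ε₁ * N) + 1) * (H : ℝ) ^ k + 1) ^ k ≤
      a * Real.exp ((1 + k * (3 + 4 * k)) * ε₁ * N) := by
  have hN0 : (0 : ℝ) ≤ N := Nat.cast_nonneg N
  have hk0 : (0 : ℝ) ≤ k := Nat.cast_nonneg k
  have h3 : 2 ≤ Real.exp (ε₁ * N) := by
    have h10 := h2
    rw [Real.exp_neg, ← div_eq_mul_inv, div_le_iff₀ (Real.exp_pos _), one_mul] at h10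
    exact h10
  have h4 : Real.exp (ε₁ * N) + 1 ≤ Real.exp (2 * ε₁ * N) := by
    have h5 : Real.exp (2 * ε₁ * N) = Real.exp (ε₁ * N) * Real.exp (ε₁ * N) := by
      rw [← Real.exp_add]
      congr 1
      ring
    rw [h5]
    nlinarith
  have h5 : (H : ℝ) ≤ Real.exp (4 * ε₁ * N) := by
    have h6 : Real.exp (4 * ε₁ * N) = Real.exp (3 * ε₁ * N) * Real.exp (ε₁ * N) := by
      rw [← Real.exp_add]
      congr 1
      ring
    have h7 : 1 ≤ Real.exp (3 * ε₁ * N) := Real.one_le_exp (by positivity)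
    rw [h6]
    nlinarith
  have h6 : (H : ℝ) ^ k ≤ Real.exp (k * (4 * ε₁ * N)) := by
    rw [Real.exp_nat_mul]
    exact pow_le_pow_left₀ (Nat.cast_nonneg _) h5 k
  have h7 : (Real.exp (ε₁ * N) + 1) * (H : ℝ) ^ k ≤ Real.exp ((2 + 4 * k) * ε₁ * N) := by
    calc (Real.exp (ε₁ * N) + 1) * (H : ℝ) ^ k ≤
        Real.exp (2 * ε₁ * N) * Real.exp (k * (4 * ε₁ * N)) :=
          mul_le_mul h4 h6 (by positivity) (Real.exp_pos _).le
      _ = Real.exp ((2 + 4 * k) * ε₁ * N) := by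
          rw [← Real.exp_add]
          congr 1
          ring
  have h8 : (Real.exp (ε₁ * N) + 1) * (H : ℝ) ^ k + 1 ≤ Real.exp ((3 + 4 * k) * ε₁ * N) := by
    have h9 : Real.exp ((3 + 4 * k) * ε₁ * N) =
        Real.exp ((2 + 4 * k) * ε₁ * N) * Real.exp (ε₁ * N) := by
      rw [← Real.exp_add]
      congr 1
      ring
    have h10 : 1 ≤ Real.exp ((2 + 4 * k) * ε₁ * N) := Real.one_le_exp (by positivity)
    rw [h9]
    nlinarith
  have h9 : ((Real.exp (ε₁ * N) + 1) * (H : ℝ) ^ k + 1) ^ k ≤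
      Real.exp (k * ((3 + 4 * k) * ε₁ * N)) := by
    rw [Real.exp_nat_mul]
    exact pow_le_pow_left₀ (by positivity) h8 k
  have h10 : a + 1 ≤ a * Real.exp (ε₁ * N) := by nlinarith
  calc (a + 1) * ((Real.exp (ε₁ * N) + 1) * (H : ℝ) ^ k + 1) ^ k ≤
      (a * Real.exp (ε₁ * N)) * Real.exp (k * ((3 + 4 * k) * ε₁ * N)) :=
        mul_le_mul h10 h9 (by positivity) (by positivity)
    _ = a * Real.exp ((1 + k * (3 + 4 * k)) * ε₁ * N) := by
        rw [mul_assoc, ← Real.exp_add]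
        congr 2
        ring

theorem lift (G : Net) (hac : G.Acyclic) (r : Fin G.k → Fin G.k → Prop) (hH : Hierarchical G r)
    (P : G.Sym → ℝ) (hP : ∀ σ, 0 ≤ P σ) (hP1 : ∑ σ, P σ = 1) {ε : ℝ} (hε : 0 < ε) :
    ∃ η > 0, ∀ᶠ N : ℕ in atTop, ∀ (M : Type) (A : Set (G.Blk N)) (m : Fin G.nE → G.Blk N → M),
      Real.exp (-(η * N)) ≤ pr P A →
      (∀ e, ∀ x ∈ A, ∀ y ∈ A, G.SameData m (G.tail e) x y → m e x = m e y) →
      (∀ v, ∀ i ∈ G.dem v, ∀ x ∈ A, ∀ y ∈ A, G.SameData m v x y → ∀ n, x n i = y n i) →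
      ∃ (msg : Fin G.nE → G.Blk N → ℕ) (d : Fin G.nV → G.Blk N → G.Blk N),
        (∀ e, ((univ.image (msg e)).card : ℝ) ≤ ((m e '' A).ncard : ℝ) * Real.exp (ε * N)) ∧
        (∀ e x y, G.SameData msg (G.tail e) x y → msg e x = msg e y) ∧
        (∀ v x y, G.SameData msg v x y → d v x = d v y) ∧
        ∀ v, pr P {x : G.Blk N | ¬ ∀ i ∈ G.dem v, ∀ n, d v x n i = x n i} ≤ ε := by
  classical
  obtain ⟨R, T, key, hT, hR, hkey, hT2, hT3, hanc⟩ := forest_data G r hH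
  have hT1 : ∀ i, i ∈ T i := fun i => (hT i i).2 (hH.refl i)
  obtain ⟨ε₁, hε₁⟩ : ∃ ε₁ : ℝ, ε₁ = ε / (1 + G.k * (3 + 4 * G.k)) := ⟨_, rfl⟩
  have hε₁0 : 0 < ε₁ := by
    rw [hε₁]
    positivity
  obtain ⟨κ1, hκ1, hball1⟩ := ball_card (Y := G.Sym) hε₁0
  obtain ⟨κ2, hκ2, hball2⟩ := ball_card (Y := Option G.Sym) hε₁0
  obtain ⟨κ, hκ0, hκ3, hκ4⟩ : ∃ κ : ℝ, 0 < κ ∧ κ ≤ κ1 ∧ κ ≤ κ2 :=
    ⟨min κ1 κ2, lt_min hκ1 hκ2, min_le_left _ _, min_le_right _ _⟩
  obtain ⟨p, hp, hpm⟩ := exists_pmin P hP hP1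
  obtain ⟨η, hη0, hη1, hη2⟩ : ∃ η : ℝ, 0 < η ∧
      η ≤ κ ^ 2 / (4 ^ (G.k + 1) * ((G.k : ℝ) + 1)) ∧ η < p :=
    ⟨min (κ ^ 2 / (4 ^ (G.k + 1) * ((G.k : ℝ) + 1))) (p / 2),
      lt_min (by positivity) (by linarith), min_le_left _ _,
      lt_of_le_of_lt (min_le_right _ _) (by linarith)⟩
  refine ⟨η, hη0, ?_⟩
  have ev1 := ev_exp (c := η) (δ := ε / 2) hη0 (by positivity) 1
  have ev2 := ev_exp (c := ε₁) (δ := 1) hε₁0 one_pos 2
  have ev3 := ev_exp (c := ε₁) (δ := ε / 2) hε₁0 (by positivity)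
    (G.k * (Fintype.card (Fin G.nV × Fin G.k) : ℝ))
  filter_upwards [ev1, ev2, ev3, eventually_ge_atTop 1] with N h1 h2 h3 hN1
  intro M A m hA hm hde
  have hN0 : (0 : ℝ) ≤ N := Nat.cast_nonneg N
  have hAp : 0 < pr P A := lt_of_lt_of_le (Real.exp_pos _) hA
  have hAne : A.Nonempty := by
    by_contra h
    rw [Set.not_nonempty_iff_eq_empty] at h
    rw [h] at hAp
    unfold pr at hAp
    simp at hAp
  -- determinism
  have hdet0 : ∀ t, ∀ j ∈ G.dem t, ∀ σ τ : G.Sym, 0 < P σ → 0 < P τ →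
      (∀ i, G.Reaches i t → σ i = τ i) → σ j = τ j := by
    intro t j hj σ τ hσ hτ hag
    refine determ G P hP hP1 hpm hN1 A hη2 (by rw [neg_mul]; exact hA)
      ((univ : Finset (Fin G.k)).filter (fun i => G.Reaches i t)) j ?_ σ τ hσ hτ ?_
    · intro a ha b hb hab n
      refine hde t j hj a ha b hb (same_of_reach' G hac A m hm t a b ha hb ?_) n
      intro i hi n
      refine hab n i ?_
      rw [Finset.mem_filter]
      exact ⟨Finset.mem_univ i, hi⟩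
    · intro l hl
      exact hag l (Finset.mem_filter.1 hl).2
  have hreach : ∀ i t, G.Reaches i t → i ∈ G.avail t ∨ Comes G i t := by
    rintro i t ⟨u, hu, hiu⟩
    rcases Relation.ReflTransGen.cases_head hu with h4 | ⟨c, ⟨e, he, _⟩, _⟩
    · left
      rw [← h4]
      exact hiu
    · right
      exact ⟨u, ⟨e, he⟩, hu, hiu⟩
  have hdet : ∀ t, ∀ j ∈ G.dem t,
      Det G P (G.avail t) j ∨ ∃ i, Comes G i t ∧ Det G P (T i) j := by
    intro t j hj
    rcases hH.side t j hj with h4 | h4 | h4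
    · rcases hreach j t h4 with h5 | h5
      · exact Or.inl fun σ τ _ _ h => h j h5
      · exact Or.inr ⟨j, h5, fun σ τ _ _ h => h j (hT1 j)⟩
    · rcases hanc t t ⟨j, hj⟩ Relation.ReflTransGen.refl with h5 | ⟨i, hi, h5⟩
      · refine Or.inl fun σ τ hσ hτ _ => hdet0 t j hj σ τ hσ hτ fun i hi => ?_
        rcases hreach i t hi with h6 | h6
        · exact absurd (h4 i h6) (h5 i)
        · exact absurd h6 (h5 i)
      · refine Or.inr ⟨i, (h5 i).1 (hT1 i), fun σ τ hσ hτ h => hdet0 t j hj σ τ hσ hτ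
          fun l hl => h l ((h5 l).2 ?_)⟩
        rcases hreach l t hl with h6 | h6
        · exact h4 l h6
        · exact h6
    · refine Or.inl fun σ τ hσ hτ h => hdet0 t j hj σ τ hσ hτ fun i hi => h i ?_
      rcases hreach i t hi with h6 | h6
      · exact h6
      · exact h4 i h6
  -- the motion
  obtain ⟨F, hFa, hF⟩ := motion P hP hP1 A hAp R T key hkey hT1 hT2 hT3
    (κ / (2 ^ G.k * ((G.k : ℝ) + 1))) (by positivity)
  have hFvex : ∀ v, ∃ F' : G.Blk N → G.Blk N, (∀ x, F' x ∈ A) ∧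
      (∀ t, (G.dem t).Nonempty → G.Reach v t → ∀ x n i, Comes G i v → F' x n i = F x n i) ∧
      ∀ η : ℝ, 0 < η → pr P {x : G.Blk N | η * N < (df univ x (F' x) : ℝ)} ≤
        Real.exp (N * (-(κ / (2 ^ G.k * ((G.k : ℝ) + 1)) / 2 ^ Fintype.card (Fin G.k) * η) +
          Fintype.card (Fin G.k) * (κ / (2 ^ G.k * ((G.k : ℝ) + 1))) ^ 2 / 2)) / pr P A := by
    intro v
    by_cases hv : ∃ t, (G.dem t).Nonempty ∧ G.Reach v t
    · obtain ⟨t, ht, hvt⟩ := hv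
      rcases hanc v t ht hvt with h5 | ⟨i, hi, h5⟩
      · obtain ⟨F', h6, h7, h8⟩ := hF ∅ (Or.inl rfl)
        exact ⟨F', h6, fun _ _ _ x n l hl => absurd hl (h5 l), h8⟩
      · obtain ⟨F', h6, h7, h8⟩ := hF (T i) (Or.inr ⟨i, hi, rfl⟩)
        exact ⟨F', h6, fun _ _ _ x n l hl => h7 x n l ((h5 l).2 hl), h8⟩
    · obtain ⟨F', h6, h7, h8⟩ := hF ∅ (Or.inl rfl)
      exact ⟨F', h6, fun t ht hvt => absurd ⟨t, ht, hvt⟩ hv, h8⟩
  choose Fv hFA hFv hFP using hFvex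
  have hD : ∀ v, pr P {x : G.Blk N | κ * N < (hd x (Fv v x) : ℝ)} ≤ ε / 2 := by
    intro v
    refine le_trans (pr_mono hP (B := {x : G.Blk N | κ * N < (df univ x (Fv v x) : ℝ)}) ?_) ?_
    · intro x hx
      have hx' : κ * N < (hd x (Fv v x) : ℝ) := hx
      exact lt_of_lt_of_le hx' (Nat.cast_le.2 (hd_le_df _ _))
    · refine le_trans (hFP v κ hκ0) ?_
      rw [Fintype.card_fin, div_le_iff₀ hAp]
      have h7 := num_exp G.k κ hκ0
      have h8 : Real.exp ((N : ℝ) * (-(κ / (2 ^ G.k * ((G.k : ℝ) + 1)) / 2 ^ G.k * κ) +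
          (G.k : ℝ) * (κ / (2 ^ G.k * ((G.k : ℝ) + 1))) ^ 2 / 2)) ≤
          Real.exp (-(η * N)) * Real.exp (-(η * N)) := by
        rw [← Real.exp_add, Real.exp_le_exp]
        have h9 : -(κ / (2 ^ G.k * ((G.k : ℝ) + 1)) / 2 ^ G.k * κ) +
          (G.k : ℝ) * (κ / (2 ^ G.k * ((G.k : ℝ) + 1))) ^ 2 / 2 ≤ -(2 * η) := by
          linarith
        nlinarith [mul_le_mul_of_nonneg_left h9 hN0]
      rw [one_mul] at h1
      exact h8.trans (mul_le_mul h1 hA (Real.exp_pos _).le (by positivity))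
  obtain ⟨H, hH1, hH2, hHpos⟩ : ∃ H : ℕ, Real.exp (3 * ε₁ * N) ≤ H ∧
      (H : ℝ) < Real.exp (3 * ε₁ * N) + 1 ∧ 0 < H :=
    ⟨⌈Real.exp (3 * ε₁ * N)⌉₊, Nat.le_ceil _, Nat.ceil_lt_add_one (Real.exp_pos _).le,
      Nat.ceil_pos.2 (Real.exp_pos _)⟩
  have hHne : NeZero H := ⟨hHpos.ne'⟩
  have hb1 : ∀ x : Fin N → G.Sym, ((ball x (κ * N)).card : ℝ) ≤ Real.exp (ε₁ * N) := by
    intro x
    refine le_trans ?_ (hball1 N x)
    refine Nat.cast_le.2 (Finset.card_le_card ?_)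
    intro z hz
    rw [mem_ball] at hz ⊢
    exact hz.trans (mul_le_mul_of_nonneg_right hκ3 hN0)
  have hb2 : ∀ x : Fin N → Option G.Sym, ((ball x (κ * N)).card : ℝ) ≤ Real.exp (ε₁ * N) := by
    intro x
    refine le_trans ?_ (hball2 N x)
    refine Nat.cast_le.2 (Finset.card_le_card ?_)
    intro z hz
    rw [mem_ball] at hz ⊢
    exact hz.trans (mul_le_mul_of_nonneg_right hκ4 hN0)
  obtain ⟨msg, d, hc1, hc2, hc3, hc4⟩ := code_core G hac P hP hP1 T hT1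
    (fun u i hu hi => by
      obtain ⟨w, hw1, hw2⟩ := hH.coord u i hu hi
      exact ⟨w, hw1, fun j hj => hw2 j ((hT i j).1 hj)⟩)
    (H := H) (Real.exp_pos _).le hb1 hb2 A m hm hde hdet F hFa Fv hFA
    (fun v t ht hvt x n i hi => hFv v t ht hvt x n i hi)
  obtain ⟨msg', hmsg1, hmsg2⟩ := to_nat G msg
  have hsame : ∀ v x y, G.SameData msg' v x y → G.SameData msg v x y :=
    fun v x y h => ⟨h.1, fun e he => (hmsg1 e x y).1 (h.2 e he)⟩
  refine ⟨msg', d, fun e => ?_, fun e x y h => (hmsg1 e x y).2 (hc2 e x y (hsame _ x y h)),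
    fun v x y h => hc3 v x y (hsame v x y h), fun v => ?_⟩
  · refine le_trans (Nat.cast_le.2 (hmsg2 e)) ((hc1 e).trans ?_)
    have h5 : (1 : ℝ) ≤ ((m e '' A).ncard : ℝ) := by
      have h6 : 0 < (m e '' A).ncard :=
        (Set.ncard_pos ((Set.toFinite A).image _)).2 (hAne.image _)
      exact_mod_cast h6
    refine (count_bound G.k hε₁0 h2 hH2 h5).trans (le_of_eq ?_)
    congr 2
    rw [hε₁]
    have h6 : (1 + (G.k : ℝ) * (3 + 4 * G.k)) ≠ 0 := by positivity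
    field_simp
  · have h5 : (Fintype.card (Fin G.nV × Fin G.k) : ℝ) *
        (Real.exp (ε₁ * N) * Real.exp (ε₁ * N)) / H ≤
        Fintype.card (Fin G.nV × Fin G.k) * Real.exp (-(ε₁ * N)) := by
      rw [div_le_iff₀ (by exact_mod_cast hHpos), mul_assoc]
      refine mul_le_mul_of_nonneg_left ?_ (Nat.cast_nonneg _)
      calc Real.exp (ε₁ * N) * Real.exp (ε₁ * N)
          = Real.exp (-(ε₁ * N)) * Real.exp (3 * ε₁ * N) := by
            rw [← Real.exp_add, ← Real.exp_add]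
            congr 1
            ring
        _ ≤ Real.exp (-(ε₁ * N)) * H := mul_le_mul_of_nonneg_left hH1 (Real.exp_pos _).le
    have h6 : (G.k : ℝ) * (Fintype.card (Fin G.nV × Fin G.k) *
        (Real.exp (ε₁ * N) * Real.exp (ε₁ * N)) / H) ≤ ε / 2 := by
      refine (mul_le_mul_of_nonneg_left h5 (Nat.cast_nonneg G.k)).trans ?_
      rw [← mul_assoc]
      exact h3
    calc _ ≤ ε / 2 + ε / 2 := (hc4 v).trans (add_le_add (hD v) h6)
      _ = ε := by ring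

end Pool.Agent.Lib.NetH
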