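import Pool.Agent.Lib.NetH.Defs

/-!
# The forest of the sources
-/

set_option autoImplicit false

namespace Pool.Agent.Lib.NetH

open Finset Pool.Agent.Lib.NetAlg

theorem enc_of_reach {G : Net} {w u : Fin G.nV} (h : G.Reach w u) (hu : Encoder G u) :
    Encoder G w := by
  rcases Relation.ReflTransGen.cases_head h with h1 | ⟨c, ⟨e, he, _⟩, _⟩
  · rw [h1]
    exact hu
  · exact ⟨e, he⟩

theorem comes_down {G : Net} {r : Fin G.k → Fin G.k → Prop} (h : Hierarchical G r)
    {i j : Fin G.k} {v : Fin G.nV} (hi : Comes G i v) (hj : r j i) : Comes G j v := by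
  obtain ⟨u, hu, huv, hiu⟩ := hi
  obtain ⟨w, hwu, hw⟩ := h.coord u i hu hiu
  exact ⟨w, enc_of_reach hwu hu, Relation.ReflTransGen.trans hwu huv, hw j hj⟩

theorem comes_trans {G : Net} {i : Fin G.k} {v t : Fin G.nV} (hi : Comes G i v)
    (h : G.Reach v t) : Comes G i t := by
  obtain ⟨u, hu, huv, hiu⟩ := hi
  exact ⟨u, hu, Relation.ReflTransGen.trans huv h, hiu⟩

theorem forest_data (G : Net) (r : Fin G.k → Fin G.k → Prop) (h : Hierarchical G r) :
    ∃ (R : Finset (Fin G.k)) (T : Fin G.k → Finset (Fin G.k)) (key : Fin G.k → ℕ),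
      (∀ i j, j ∈ T i ↔ r j i) ∧ (∀ i, i ∈ R ↔ ∃ t, (G.dem t).Nonempty ∧ Comes G i t) ∧
      Function.Injective key ∧
      (∀ i ∈ R, ∀ j ∈ T i, j ∈ R ∧ T j ⊆ T i ∧ key j ≤ key i) ∧
      (∀ i ∈ R, T i = {i} ∨ ∃ j ∈ R, i ∉ T j ∧ T i = insert i (T j)) ∧
      ∀ v t, (G.dem t).Nonempty → G.Reach v t →
        (∀ i, ¬ Comes G i v) ∨ ∃ i ∈ R, ∀ j, j ∈ T i ↔ Comes G j v := by
  classical
  obtain ⟨T, hT⟩ : ∃ T : Fin G.k → Finset (Fin G.k), ∀ i j, j ∈ T i ↔ r j i :=
    ⟨fun i => univ.filter (fun j => r j i), fun i j => by simp⟩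
  obtain ⟨R, hR⟩ : ∃ R : Finset (Fin G.k), ∀ i, i ∈ R ↔ ∃ t, (G.dem t).Nonempty ∧ Comes G i t :=
    ⟨univ.filter (fun i => ∃ t, (G.dem t).Nonempty ∧ Comes G i t), fun i => by simp⟩
  obtain ⟨key, hkey⟩ : ∃ key : Fin G.k → ℕ, ∀ i, key i = G.k * (T i).card + (i : ℕ) :=
    ⟨fun i => G.k * (T i).card + (i : ℕ), fun i => rfl⟩
  have hinj : Function.Injective key := by
    intro i j h
    rw [hkey, hkey] at h
    have h1 : (G.k * (T i).card + (i : ℕ)) % G.k = (G.k * (T j).card + (j : ℕ)) % G.k := by rw [h]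
    rw [Nat.mul_add_mod, Nat.mul_add_mod, Nat.mod_eq_of_lt i.isLt, Nat.mod_eq_of_lt j.isLt] at h1
    exact Fin.ext h1
  have hlt : ∀ i j, r j i → j ≠ i → key j < key i := by
    intro i j hji hne
    have h1 : T j ⊂ T i := by
      rw [Finset.ssubset_iff_of_subset]
      · refine ⟨i, (hT i i).2 (h.refl i), fun h2 => hne ?_⟩
        exact h.antisymm j i hji ((hT j i).1 h2)
      · intro l hl
        exact (hT i l).2 (h.trans l j i ((hT j l).1 hl) hji)
    have h2 := Finset.card_lt_card h1
    rw [hkey, hkey]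
    have h3 : G.k * ((T j).card + 1) ≤ G.k * (T i).card := Nat.mul_le_mul_left _ h2
    have h4 := j.isLt
    rw [Nat.mul_add, Nat.mul_one] at h3
    omega
  have hle : ∀ i j, r j i → key j ≤ key i := by
    intro i j hji
    by_cases hne : j = i
    · rw [hne]
    · exact (hlt i j hji hne).le
  have hsub : ∀ i j, r j i → T j ⊆ T i := fun i j hji l hl =>
    (hT i l).2 (h.trans l j i ((hT j l).1 hl) hji)
  have hRd : ∀ i ∈ R, ∀ j, r j i → j ∈ R := by
    intro i hi j hji
    obtain ⟨t, ht, hit⟩ := (hR i).1 hi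
    exact (hR j).2 ⟨t, ht, comes_down h hit hji⟩
  refine ⟨R, T, key, hT, hR, hinj, fun i hi j hj => ?_, fun i hi => ?_, ?_⟩
  · have hj' := (hT i j).1 hj
    exact ⟨hRd i hi j hj', hsub i j hj', hle i j hj'⟩
  · by_cases hne : ((T i).erase i).Nonempty
    · right
      obtain ⟨j, hj, hmax⟩ := Finset.exists_max_image _ key hne
      rw [Finset.mem_erase] at hj
      have hji := (hT i j).1 hj.2
      refine ⟨j, hRd i hi j hji, fun h2 => hj.1 ?_, ?_⟩
      · exact h.antisymm j i hji ((hT j i).1 h2)
      · ext l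
        rw [Finset.mem_insert]
        constructor
        · intro hl
          by_cases hli : l = i
          · exact Or.inl hli
          · right
            have hli' := (hT i l).1 hl
            obtain ⟨t, ht, hit⟩ := (hR i).1 hi
            rcases h.chain t ht l j (comes_down h hit hli') (comes_down h hit hji) with h3 | h3
            · exact (hT j l).2 h3
            · by_cases hjl : j = l
              · rw [hjl, hT]
                exact h.refl l
              · have h4 := hlt l j h3 hjl
                have h5 := hmax l (Finset.mem_erase.2 ⟨hli, hl⟩)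
                omega
        · rintro (rfl | hl)
          · exact (hT l l).2 (h.refl l)
          · exact hsub i j hji hl
    · left
      rw [Finset.not_nonempty_iff_eq_empty] at hne
      ext l
      rw [Finset.mem_singleton]
      constructor
      · intro hl
        by_contra hli
        have h3 : l ∈ (T i).erase i := Finset.mem_erase.2 ⟨hli, hl⟩
        rw [hne] at h3
        exact absurd h3 (Finset.notMem_empty l)
      · rintro rfl
        exact (hT l l).2 (h.refl l)
  · intro v t ht hvt
    by_cases hex : ∃ i, Comes G i v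
    · right
      have hne : (univ.filter (fun i => Comes G i v)).Nonempty := by
        obtain ⟨i, hi⟩ := hex
        exact ⟨i, Finset.mem_filter.2 ⟨Finset.mem_univ i, hi⟩⟩
      obtain ⟨i, hi, hmax⟩ := Finset.exists_max_image _ key hne
      rw [Finset.mem_filter] at hi
      refine ⟨i, (hR i).2 ⟨t, ht, comes_trans hi.2 hvt⟩, fun j => ⟨fun hj => ?_, fun hj => ?_⟩⟩
      · exact comes_down h hi.2 ((hT i j).1 hj)
      · rcases h.chain t ht j i (comes_trans hj hvt) (comes_trans hi.2 hvt) with h3 | h3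
        · exact (hT i j).2 h3
        · by_cases hij : i = j
          · rw [hij, hT]
            exact h.refl j
          · have h4 := hlt j i h3 hij
            have h5 := hmax j (Finset.mem_filter.2 ⟨Finset.mem_univ j, hj⟩)
            omega
    · left
      intro i hi
      exact hex ⟨i, hi⟩

end Pool.Agent.Lib.NetH
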